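import Mathlib

set_option autoImplicit false
open Finset

namespace Pool.Agent.H82.Bis

/-- The numerical heart of the argument, one-sided version. -/
theorem core_pos {L : ℕ} {C : Type} [Fintype C] [DecidableEq C] (F : Fin L → Finset C)
    (p : ℝ) (a : C → ℝ) (b δ m : Fin L → ℝ) (E T η : ℝ) (j0 : Fin L)
    (ha : ∀ c, a c = 1 ∨ a c = -1)
    (hF : ∀ i, ((F i).card : ℝ) = 2 * p)
    (hFF : ∀ i j, i ≠ j → (F i ∩ F j).card ≤ 1)
    (hbneg : ∀ i, δ i < -T → b i = -p)
    (hbpos : ∀ i, T < δ i → b i = p)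
    (hdm : ∀ i, |δ i| ≤ m i)
    (hS : ∀ i, i < j0 → |∑ c ∈ F i, a c + b i| ≤ E)
    (hj0 : δ j0 = m j0)
    (hA : ∀ u, a u = 1 → -T ≤ ∑ i ∈ univ.filter (fun i => u ∈ F i), δ i)
    (hB : ∀ u, a u = -1 → ∑ i ∈ univ.filter (fun i => u ∈ F i), δ i ≤ T)
    (hbal : ∑ i, δ i ≤ T)
    (hT : 0 ≤ T) (hTm : T ≤ η * m j0) (hmm : ∀ i, j0 < i → m i ≤ η * m j0)
    (hm : 0 < m j0) (hE : E ≤ p / 100) (hp : 100 ≤ p)
    (hη : η * (2 * Fintype.card C + 8 * p * L) ≤ 1 / 10) (hη1 : η ≤ 1 / 10) : False := by
  classical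
  set μ := m j0 with hμ
  -- positive and negative parts
  set dp : Fin L → ℝ := fun i => max (δ i) 0 with hdp
  set dn : Fin L → ℝ := fun i => max (-δ i) 0 with hdn
  have hdpn : ∀ i, δ i = dp i - dn i := by
    intro i
    simp only [hdp, hdn]
    rcases le_total (δ i) 0 with h | h
    · rw [max_eq_right h, max_eq_left (by linarith)]; ring
    · rw [max_eq_left h, max_eq_right (by linarith)]; ring
  have hdp0 : ∀ i, 0 ≤ dp i := fun i => le_max_right _ _
  have hdn0 : ∀ i, 0 ≤ dn i := fun i => le_max_right _ _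
  set s : Fin L → ℝ := fun i => ∑ c ∈ F i, a c with hs
  have ha1 : ∀ c, |a c| ≤ 1 := by
    intro c; rcases ha c with h | h <;> rw [h] <;> norm_num
  have hs_abs : ∀ i, |s i| ≤ 2 * p := by
    intro i
    rw [← hF i]
    calc |s i| ≤ ∑ c ∈ F i, |a c| := abs_sum_le_sum_abs _ _
      _ ≤ ∑ c ∈ F i, (1 : ℝ) := sum_le_sum (fun c _ => ha1 c)
      _ = ((F i).card : ℝ) := by simp
  -- weights
  set w : C → ℝ := fun u => if u ∈ F j0 then 0 else (1 + a u) / 2 with hw
  set W : Fin L → ℝ := fun i => ∑ u ∈ F i, w u with hW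
  set Z : Fin L → ℝ := fun i => ∑ u ∈ F i, (1 - a u) / 2 with hZ
  have hhalf : ∀ i, ∑ u ∈ F i, (1 + a u) / 2 = (2 * p + s i) / 2 := by
    intro i
    rw [← Finset.sum_div, Finset.sum_add_distrib, ← hF i]
    simp [hs]
  have hZi : ∀ i, Z i = (2 * p - s i) / 2 := by
    intro i
    simp only [hZ]
    rw [← Finset.sum_div, Finset.sum_sub_distrib, ← hF i]
    simp [hs]
  have hw0 : ∀ u, 0 ≤ w u := by
    intro u
    simp only [hw]
    split_ifs
    · exact le_refl _
    · have := abs_le.mp (ha1 u); linarith [this.1]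
  have hwle : ∀ u, w u ≤ (1 + a u) / 2 := by
    intro u
    simp only [hw]
    split_ifs
    · have := abs_le.mp (ha1 u); linarith [this.1]
    · exact le_refl _
  have hW0 : ∀ i, 0 ≤ W i := fun i => sum_nonneg (fun u _ => hw0 u)
  have hWj0 : W j0 = 0 := by
    simp only [hW]
    apply sum_eq_zero
    intro u hu
    simp only [hw, if_pos hu]
  have hWle : ∀ i, W i ≤ (2 * p + s i) / 2 := by
    intro i
    rw [← hhalf i]
    exact sum_le_sum (fun u _ => hwle u)
  have hWge : ∀ i, i ≠ j0 → (2 * p + s i) / 2 - 1 ≤ W i := by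
    intro i hi
    have h1 : (2 * p + s i) / 2 - W i = ∑ u ∈ F i, ((1 + a u) / 2 - w u) := by
      rw [Finset.sum_sub_distrib, hhalf i]
    have h2 : ∑ u ∈ F i, ((1 + a u) / 2 - w u) ≤ ∑ u ∈ F i, (if u ∈ F j0 then (1 : ℝ) else 0) := by
      apply sum_le_sum
      intro u _
      simp only [hw]
      split_ifs
      · have := abs_le.mp (ha1 u); linarith [this.2]
      · linarith
    have h3 : ∑ u ∈ F i, (if u ∈ F j0 then (1 : ℝ) else 0) = ((F i ∩ F j0).card : ℝ) := by
      rw [← Finset.sum_filter, Finset.filter_mem_eq_inter]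
      simp
    have h4 : ((F i ∩ F j0).card : ℝ) ≤ 1 := by exact_mod_cast hFF i j0 hi
    linarith
  have hp0 : 0 < p := by linarith
  have hη0 : 0 ≤ η * μ := le_trans hT hTm
  -- classification
  have hcase : ∀ i, i ≠ j0 → (|δ i| ≤ η * μ) ∨ (δ i < 0 ∧ p - E ≤ s i) ∨ (0 < δ i ∧ s i ≤ -p + E) := by
    intro i hi
    rcases lt_or_gt_of_ne hi with h | h
    · by_cases h1 : δ i < -T
      · right; left
        refine ⟨by linarith, ?_⟩
        have h2 := abs_le.mp (hS i h)
        rw [hbneg i h1] at h2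
        have h3 : s i = ∑ c ∈ F i, a c := rfl
        rw [h3]; linarith [h2.1]
      · by_cases h1' : T < δ i
        · right; right
          refine ⟨by linarith, ?_⟩
          have h2 := abs_le.mp (hS i h)
          rw [hbpos i h1'] at h2
          have h3 : s i = ∑ c ∈ F i, a c := rfl
          rw [h3]; linarith [h2.2]
        · left
          push Not at h1 h1'
          exact le_trans (abs_le.mpr ⟨h1, h1'⟩) hTm
    · left
      exact le_trans (hdm i) (hmm i h)
  -- pointwise bound A
  have hptA : ∀ i, i ≠ j0 → δ i * W i ≤ -(14/10) * p * dn i + (51/100) * p * dp i + 4 * p * (η * μ) := by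
    intro i hi
    have hs1 := abs_le.mp (hs_abs i)
    have hWi2 : W i ≤ 2 * p := by have := hWle i; linarith [hs1.2]
    rcases hcase i hi with h | ⟨h, h'⟩ | ⟨h, h'⟩
    · have h1 : δ i * W i ≤ (η * μ) * (2 * p) := by
        calc δ i * W i ≤ |δ i| * W i := mul_le_mul_of_nonneg_right (le_abs_self _) (hW0 i)
          _ ≤ (η * μ) * (2 * p) := mul_le_mul h hWi2 (hW0 i) hη0
      have h2 : dn i ≤ η * μ := by
        simp only [hdn]
        exact max_le (le_trans (neg_le_abs _) h) hη0
      have h3 : 0 ≤ p * dp i := mul_nonneg hp0.le (hdp0 i)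
      have h4 : p * dn i ≤ p * (η * μ) := mul_le_mul_of_nonneg_left h2 hp0.le
      have h5 : 0 ≤ p * (η * μ) := mul_nonneg hp0.le hη0
      nlinarith
    · have h1 : dn i = -δ i := by simp only [hdn]; exact max_eq_left (by linarith)
      have h2 : dp i = 0 := by simp only [hdp]; exact max_eq_right (by linarith)
      have h3 : (14/10) * p ≤ W i := by
        have := hWge i hi
        linarith
      have h4 : δ i * W i ≤ δ i * ((14/10) * p) := mul_le_mul_of_nonpos_left h3 h.le
      have h5 : 0 ≤ p * (η * μ) := mul_nonneg hp0.le hη0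
      rw [h1, h2]
      nlinarith
    · have h1 : dn i = 0 := by simp only [hdn]; exact max_eq_right (by linarith)
      have h2 : dp i = δ i := by simp only [hdp]; exact max_eq_left (by linarith)
      have h3 : W i ≤ (51/100) * p := by
        have := hWle i
        linarith
      have h4 : δ i * W i ≤ δ i * ((51/100) * p) := mul_le_mul_of_nonneg_left h3 h.le
      have h5 : 0 ≤ p * (η * μ) := mul_nonneg hp0.le hη0
      rw [h1, h2]
      nlinarith
  -- pointwise bound B
  have hZ0 : ∀ i, 0 ≤ Z i := by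
    intro i; rw [hZi i]; have := abs_le.mp (hs_abs i); linarith [this.2]
  have hptB : ∀ i, i ≠ j0 → (14/10) * p * dp i - (51/100) * p * dn i - 4 * p * (η * μ) ≤ δ i * Z i := by
    intro i hi
    have hs1 := abs_le.mp (hs_abs i)
    have hZi2 : Z i ≤ 2 * p := by rw [hZi i]; linarith [hs1.1]
    rcases hcase i hi with h | ⟨h, h'⟩ | ⟨h, h'⟩
    · have h1 : -((η * μ) * (2 * p)) ≤ δ i * Z i := by
        have : (-δ i) * Z i ≤ (η * μ) * (2 * p) := by
          calc (-δ i) * Z i ≤ |δ i| * Z i := mul_le_mul_of_nonneg_right (neg_le_abs _) (hZ0 i)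
            _ ≤ (η * μ) * (2 * p) := mul_le_mul h hZi2 (hZ0 i) hη0
        linarith
      have h2 : dp i ≤ η * μ := by
        simp only [hdp]
        exact max_le (le_trans (le_abs_self _) h) hη0
      have h3 : 0 ≤ p * dn i := mul_nonneg hp0.le (hdn0 i)
      have h4 : p * dp i ≤ p * (η * μ) := mul_le_mul_of_nonneg_left h2 hp0.le
      have h5 : 0 ≤ p * (η * μ) := mul_nonneg hp0.le hη0
      nlinarith
    · have h1 : dn i = -δ i := by simp only [hdn]; exact max_eq_left (by linarith)
      have h2 : dp i = 0 := by simp only [hdp]; exact max_eq_right (by linarith)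
      have h3 : Z i ≤ (51/100) * p := by
        rw [hZi i]
        linarith
      have h4 : δ i * ((51/100) * p) ≤ δ i * Z i := mul_le_mul_of_nonpos_left h3 h.le
      have h5 : 0 ≤ p * (η * μ) := mul_nonneg hp0.le hη0
      rw [h1, h2]
      nlinarith
    · have h1 : dn i = 0 := by simp only [hdn]; exact max_eq_right (by linarith)
      have h2 : dp i = δ i := by simp only [hdp]; exact max_eq_left (by linarith)
      have h3 : (14/10) * p ≤ Z i := by
        rw [hZi i]
        linarith
      have h4 : δ i * ((14/10) * p) ≤ δ i * Z i := mul_le_mul_of_nonneg_left h3 h.le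
      have h5 : 0 ≤ p * (η * μ) := mul_nonneg hp0.le hη0
      rw [h1, h2]
      nlinarith
  -- double counting
  have hswap : ∀ (v : C → ℝ), ∑ u, v u * ∑ i ∈ univ.filter (fun i => u ∈ F i), δ i
      = ∑ i, δ i * ∑ u ∈ F i, v u := by
    intro v
    have h1 : ∀ u, v u * ∑ i ∈ univ.filter (fun i => u ∈ F i), δ i
        = ∑ i, (if u ∈ F i then v u * δ i else 0) := by
      intro u
      rw [Finset.mul_sum, Finset.sum_filter]
    have h2 : ∀ i, δ i * ∑ u ∈ F i, v u = ∑ u, (if u ∈ F i then v u * δ i else 0) := by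
      intro i
      rw [Finset.mul_sum, ← Finset.sum_filter]
      have : univ.filter (fun u => u ∈ F i) = F i := by ext u; simp
      rw [this]
      apply sum_congr rfl
      intro u _; ring
    simp_rw [h1, h2]
    exact Finset.sum_comm
  have hsumA : -(Fintype.card C * T) ≤ ∑ i, δ i * W i := by
    rw [← hswap w]
    have h1 : ∀ u, -T ≤ w u * ∑ i ∈ univ.filter (fun i => u ∈ F i), δ i := by
      intro u
      rcases ha u with h | h
      · have h2 := hA u h
        simp only [hw]
        split_ifs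
        · rw [zero_mul]; linarith
        · rw [h]; linarith
      · have h2 : w u = 0 := by
          have := hwle u
          have h3 := hw0 u
          rw [h] at this
          linarith
        rw [h2, zero_mul]; linarith
    calc -(Fintype.card C * T) = ∑ _u : C, (-T) := by simp
      _ ≤ _ := sum_le_sum (fun u _ => h1 u)
  have hsumB : ∑ i, δ i * Z i ≤ Fintype.card C * T := by
    have := hswap (fun u => (1 - a u) / 2)
    simp only [hZ]
    rw [← this]
    have h1 : ∀ u, (1 - a u) / 2 * ∑ i ∈ univ.filter (fun i => u ∈ F i), δ i ≤ T := by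
      intro u
      rcases ha u with h | h
      · rw [h]; norm_num; exact hT
      · have h2 := hB u h
        rw [h]; norm_num; exact h2
    calc _ ≤ ∑ _u : C, T := sum_le_sum (fun u _ => h1 u)
      _ = Fintype.card C * T := by simp
  -- sums over i ≠ j0
  set Xp := ∑ i ∈ univ.erase j0, dp i with hXp
  set Xn := ∑ i ∈ univ.erase j0, dn i with hXn
  have hXp0 : 0 ≤ Xp := sum_nonneg (fun i _ => hdp0 i)
  have hXn0 : 0 ≤ Xn := sum_nonneg (fun i _ => hdn0 i)
  have hcardL : ((univ.erase j0 : Finset (Fin L)).card : ℝ) ≤ L := by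
    have : (univ.erase j0 : Finset (Fin L)).card ≤ (univ : Finset (Fin L)).card :=
      Finset.card_le_card (Finset.erase_subset _ _)
    rw [Finset.card_univ, Fintype.card_fin] at this
    exact_mod_cast this
  have h5 : 0 ≤ 4 * p * (η * μ) := by positivity
  have hAtot : ∑ i, δ i * W i ≤ -(14/10) * p * Xn + (51/100) * p * Xp + L * (4 * p * (η * μ)) := by
    rw [← Finset.add_sum_erase univ _ (mem_univ j0), hWj0, mul_zero, zero_add]
    calc ∑ i ∈ univ.erase j0, δ i * W i
        ≤ ∑ i ∈ univ.erase j0, (-(14/10) * p * dn i + (51/100) * p * dp i + 4 * p * (η * μ)) :=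
          sum_le_sum (fun i hi => hptA i (Finset.ne_of_mem_erase hi))
      _ = -(14/10) * p * Xn + (51/100) * p * Xp
            + ((univ.erase j0 : Finset (Fin L)).card : ℝ) * (4 * p * (η * μ)) := by
          rw [Finset.sum_add_distrib, Finset.sum_add_distrib, ← Finset.mul_sum, ← Finset.mul_sum]
          simp only [Finset.sum_const, nsmul_eq_mul]
          rfl
      _ ≤ _ := by
          have := mul_le_mul_of_nonneg_right hcardL h5
          linarith
  have hBtot : (14/10) * p * Xp - (51/100) * p * Xn - L * (4 * p * (η * μ)) ≤ ∑ i, δ i * Z i := by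
    rw [← Finset.add_sum_erase univ _ (mem_univ j0)]
    have hj : 0 ≤ δ j0 * Z j0 := mul_nonneg (by rw [hj0]; exact hm.le) (hZ0 j0)
    have : (14/10) * p * Xp - (51/100) * p * Xn - L * (4 * p * (η * μ))
        ≤ ∑ i ∈ univ.erase j0, δ i * Z i := by
      calc (14/10) * p * Xp - (51/100) * p * Xn - L * (4 * p * (η * μ))
          ≤ (14/10) * p * Xp - (51/100) * p * Xn
            - ((univ.erase j0 : Finset (Fin L)).card : ℝ) * (4 * p * (η * μ)) := by
            have := mul_le_mul_of_nonneg_right hcardL h5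
            linarith
        _ = ∑ i ∈ univ.erase j0, ((14/10) * p * dp i - (51/100) * p * dn i - 4 * p * (η * μ)) := by
          rw [Finset.sum_sub_distrib, Finset.sum_sub_distrib, ← Finset.mul_sum, ← Finset.mul_sum]
          simp only [Finset.sum_const, nsmul_eq_mul]
          rfl
        _ ≤ _ := sum_le_sum (fun i hi => hptB i (Finset.ne_of_mem_erase hi))
    linarith
  have hbal' : μ + (Xp - Xn) ≤ T := by
    rw [← Finset.add_sum_erase univ _ (mem_univ j0), hj0] at hbal
    have : ∑ i ∈ univ.erase j0, δ i = Xp - Xn := by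
      rw [hXp, hXn, ← Finset.sum_sub_distrib]
      exact sum_congr rfl (fun i _ => hdpn i)
    rw [this] at hbal
    exact hbal
  -- final contradiction
  have hCT : (Fintype.card C : ℝ) * T ≤ Fintype.card C * (η * μ) :=
    mul_le_mul_of_nonneg_left hTm (Nat.cast_nonneg _)
  have hfin1 : (89/100) * p * (Xn + Xp) ≤ (η * (2 * Fintype.card C + 8 * p * L)) * μ := by
    nlinarith
  have hfin2 : (η * (2 * Fintype.card C + 8 * p * L)) * μ ≤ (1/10) * μ :=
    mul_le_mul_of_nonneg_right hη hm.le
  have hT1 : T ≤ (1/10) * μ := le_trans hTm (mul_le_mul_of_nonneg_right hη1 hm.le)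
  have hXn1 : (9/10) * μ ≤ Xn := by linarith
  have : (89/100) * p * (Xn + Xp) ≥ (89/100) * 100 * ((9/10) * μ) := by
    have h1 : (89/100) * 100 ≤ (89/100) * p := by linarith
    have h2 : (9/10) * μ ≤ Xn + Xp := by linarith
    exact mul_le_mul h1 h2 (by linarith) (by linarith)
  linarith

/-- The numerical heart of the argument. -/
theorem core {L : ℕ} {C : Type} [Fintype C] [DecidableEq C] (F : Fin L → Finset C)
    (p : ℝ) (a : C → ℝ) (b δ m : Fin L → ℝ) (E T η : ℝ)
    (ha : ∀ c, a c = 1 ∨ a c = -1)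
    (hF : ∀ i, ((F i).card : ℝ) = 2 * p)
    (hFF : ∀ i j, i ≠ j → (F i ∩ F j).card ≤ 1)
    (hb : ∀ i, |b i| ≤ p)
    (hbneg : ∀ i, δ i < -T → b i = -p)
    (hbpos : ∀ i, T < δ i → b i = p)
    (hdm : ∀ i, |δ i| ≤ m i)
    (hSle : ∀ i, δ i < m i → ∑ c ∈ F i, a c + b i ≤ E)
    (hSge : ∀ i, -m i < δ i → -E ≤ ∑ c ∈ F i, a c + b i)
    (hmono : ∃ j, |∑ c ∈ F j, a c| = 2 * p)
    (hA : ∀ u, a u = 1 → -T ≤ ∑ i ∈ univ.filter (fun i => u ∈ F i), δ i)
    (hB : ∀ u, a u = -1 → ∑ i ∈ univ.filter (fun i => u ∈ F i), δ i ≤ T)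
    (hbal : |∑ i, δ i| ≤ T)
    (hT : 0 ≤ T) (hTm : ∀ i, T ≤ η * m i) (hmm : ∀ i j, i < j → m j ≤ η * m i)
    (hm : ∀ i, 0 < m i) (hE : E ≤ p / 100) (hp : 100 ≤ p)
    (hη : η * (2 * Fintype.card C + 8 * p * L) ≤ 1 / 10) (hη1 : η ≤ 1 / 10) : False := by
  classical
  set bad : Set (Fin L) := {i | E < |∑ c ∈ F i, a c + b i|} with hbad
  have hne : bad.Nonempty := by
    obtain ⟨j, hj⟩ := hmono
    refine ⟨j, ?_⟩
    show E < |∑ c ∈ F j, a c + b j|
    have h1 : |∑ c ∈ F j, a c| - |b j| ≤ |∑ c ∈ F j, a c + b j| := by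
      have := abs_sub_abs_le_abs_sub (∑ c ∈ F j, a c) (-b j)
      rw [abs_neg, sub_neg_eq_add] at this
      exact this
    have h2 := hb j
    rw [hj] at h1
    linarith
  obtain ⟨j0, hj0, hmin⟩ := WellFounded.has_min (wellFounded_lt (α := Fin L)) bad hne
  have hgood : ∀ i, i < j0 → |∑ c ∈ F i, a c + b i| ≤ E := by
    intro i hi
    by_contra h
    push Not at h
    exact hmin i h hi
  have hbad0 : E < |∑ c ∈ F j0, a c + b j0| := hj0
  rcases lt_or_ge E (∑ c ∈ F j0, a c + b j0) with h | h
  · have hd : δ j0 = m j0 := by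
      by_contra hne
      have h1 : δ j0 < m j0 := lt_of_le_of_ne (abs_le.mp (hdm j0)).2 hne
      linarith [hSle j0 h1]
    exact core_pos F p a b δ m E T η j0 ha hF hFF hbneg hbpos hdm hgood hd hA hB
      (abs_le.mp hbal).2 hT (hTm j0) (fun i hi => hmm j0 i hi) (hm j0) hE hp hη hη1
  · have h' : ∑ c ∈ F j0, a c + b j0 < -E := by
      by_contra hcon
      push Not at hcon
      exact absurd (abs_le.mpr ⟨hcon, h⟩) (not_le.mpr hbad0)
    have hd : -δ j0 = m j0 := by
      by_contra hne
      have h1 : -m j0 < δ j0 := by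
        apply lt_of_le_of_ne (abs_le.mp (hdm j0)).1
        intro h2
        apply hne
        rw [← h2, neg_neg]
      linarith [hSge j0 h1]
    have hsum : ∀ i, ∑ c ∈ F i, -a c + -b i = -(∑ c ∈ F i, a c + b i) := by
      intro i
      rw [Finset.sum_neg_distrib]; ring
    refine core_pos F p (fun c => -a c) (fun i => -b i) (fun i => -δ i) m E T η j0
      ?_ hF hFF ?_ ?_ ?_ ?_ hd ?_ ?_ ?_ hT (hTm j0) (fun i hi => hmm j0 i hi) (hm j0) hE hp hη hη1
    · intro c
      rcases ha c with h | h
      · right; rw [h]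
      · left; rw [h, neg_neg]
    · intro i hi
      have : T < δ i := by linarith
      rw [hbpos i this]
    · intro i hi
      have : δ i < -T := by linarith
      rw [hbneg i this, neg_neg]
    · intro i
      rw [abs_neg]
      exact hdm i
    · intro i hi
      rw [hsum i, abs_neg]
      exact hgood i hi
    · intro u hu
      rw [Finset.sum_neg_distrib]
      have := hB u (by linarith)
      linarith
    · intro u hu
      rw [Finset.sum_neg_distrib]
      have := hA u (by linarith)
      linarith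
    · simp only [Finset.sum_neg_distrib]
      linarith [(abs_le.mp hbal).1]

end Pool.Agent.H82.Bis
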