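import Mathlib

set_option autoImplicit false
open Finset

namespace Pool.Agent.H82.Bis

open Combinatorics

theorem line_inj {q : ℕ} {ι : Type} (l : Line (Fin q) ι) :
    Function.Injective (fun x : Fin q => (l x : ι → Fin q)) := by
  intro x y h
  obtain ⟨i, hi⟩ := l.proper
  have := congrFun h i
  simpa [hi] using this

theorem line_eq_of_two {q : ℕ} {ι : Type} (l l' : Line (Fin q) ι) (x y x' y' : Fin q)
    (hxy : x ≠ y) (hx : (l x : ι → Fin q) = l' x') (hy : (l y : ι → Fin q) = l' y') : l = l' := by
  have hxy' : x' ≠ y' := by
    intro h
    apply hxy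
    apply line_inj l
    show (l x : ι → Fin q) = l y
    rw [hx, hy, h]
  ext i : 2
  · have h1 := congrFun hx i
    have h2 := congrFun hy i
    simp only [Line.coe_apply] at h1 h2
    cases hl : l.idxFun i with
    | none =>
      cases hl' : l'.idxFun i with
      | none => rfl
      | some c =>
        rw [hl, hl'] at h1 h2
        simp only [Option.getD_none, Option.getD_some] at h1 h2
        exact absurd (h1.trans h2.symm) hxy
    | some c =>
      cases hl' : l'.idxFun i with
      | none =>
        rw [hl, hl'] at h1 h2
        simp only [Option.getD_none, Option.getD_some] at h1 h2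
        exact absurd (h1.symm.trans h2) hxy'
      | some c' =>
        rw [hl, hl'] at h1
        simp only [Option.getD_some] at h1
        rw [h1]

/-- A finite linear hypergraph all of whose edges have size `q` and which is not 2-colourable. -/
theorem exists_hypergraph (q : ℕ) :
    ∃ (C : Type) (_ : Fintype C) (_ : DecidableEq C) (L : ℕ) (F : Fin L → Finset C),
      (∀ i, (F i).card = q) ∧ (∀ i j, i ≠ j → (F i ∩ F j).card ≤ 1) ∧
      ∀ a : C → ℝ, (∀ c, a c = 1 ∨ a c = -1) → ∃ j, |∑ c ∈ F j, a c| = q := by
  classical
  obtain ⟨ι, hι, H⟩ := Line.exists_mono_in_high_dimension (Fin q) Bool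
  have : Finite (Line (Fin q) ι) := by
    apply Finite.of_injective (fun l : Line (Fin q) ι => l.idxFun)
    intro l l' h
    ext i : 2
    exact congrFun h i
  have : Fintype (Line (Fin q) ι) := Fintype.ofFinite _
  let e := Fintype.equivFin (Line (Fin q) ι)
  refine ⟨ι → Fin q, inferInstance, inferInstance, Fintype.card (Line (Fin q) ι),
    fun i => Finset.univ.image (fun x : Fin q => ((e.symm i) x : ι → Fin q)), ?_, ?_, ?_⟩
  · intro i
    rw [Finset.card_image_of_injective _ (line_inj _)]
    simp
  · intro i j hij
    rw [Finset.card_le_one]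
    intro u hu v hv
    simp only [Finset.mem_inter, Finset.mem_image, Finset.mem_univ, true_and] at hu hv
    obtain ⟨⟨x, hx⟩, ⟨x', hx'⟩⟩ := hu
    obtain ⟨⟨y, hy⟩, ⟨y', hy'⟩⟩ := hv
    by_contra huv
    apply hij
    have hxy : x ≠ y := by
      rintro rfl
      exact huv (hx.symm.trans hy)
    have := line_eq_of_two (e.symm i) (e.symm j) x y x' y' hxy (hx.trans hx'.symm) (hy.trans hy'.symm)
    exact e.symm.injective this
  · intro a ha
    obtain ⟨l, c, hc⟩ := H (fun v => decide (a v = 1))
    refine ⟨e l, ?_⟩
    have hsum : ∑ v ∈ Finset.univ.image (fun x : Fin q => ((e.symm (e l)) x : ι → Fin q)), a v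
        = ∑ x : Fin q, a (l x) := by
      rw [Finset.sum_image (fun x _ y _ h => line_inj _ h)]
      rw [Equiv.symm_apply_apply]
    rw [hsum]
    cases c with
    | true =>
      have : ∀ x, a (l x) = 1 := by
        intro x
        have := hc x
        simpa using this
      simp only [this]
      simp
    | false =>
      have : ∀ x, a (l x) = -1 := by
        intro x
        have h1 := hc x
        have h2 : ¬ (a (l x) = 1) := by simpa using h1
        rcases ha (l x) with h | h
        · exact absurd h h2
        · exact h
      simp only [this]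
      simp

end Pool.Agent.H82.Bis
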