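import Mathlib
import Pool.Agent.H82.BisCore
import Pool.Agent.H82.BisLines

set_option autoImplicit false
open Finset

namespace Pool.Agent.H82.Bis

/-- Sign form of the hypothesis, on arbitrary finite vertex types. -/
def Hyp (ζ : ℝ) (g : ℕ → ℝ) : Prop :=
  ∀ (W : Type) [Fintype W] [DecidableEq W] (G : SimpleGraph W) [DecidableRel G.Adj],
    ∃ ε : W → ℝ, (∀ w, ε w = 1 ∨ ε w = -1) ∧ |∑ w, ε w| ≤ 1 ∧
      ∀ v, -(2 * g (univ.filter (G.Adj v)).card) ≤ ζ * (ε v * ∑ w ∈ univ.filter (G.Adj v), ε w)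

/-- Bipartite form of the hypothesis. -/
def BP (g : ℕ → ℝ) : Prop :=
  ∀ (U V : Type) [Fintype U] [Fintype V] [DecidableEq U] [DecidableEq V]
    (r : U → V → Prop) [∀ u v, Decidable (r u v)],
    ∃ (x : U → ℝ) (y : V → ℝ), (∀ u, x u = 1 ∨ x u = -1) ∧ (∀ v, y v = 1 ∨ y v = -1) ∧
      |∑ v, y v| ≤ 1 + Fintype.card U ∧
      (∀ u, -(2 * g (univ.filter (fun v => r u v)).card) ≤ x u * ∑ v ∈ univ.filter (fun v => r u v), y v) ∧
      (∀ v, -(2 * g (univ.filter (fun u => r u v)).card) ≤ y v * ∑ u ∈ univ.filter (fun u => r u v), x u)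

/-- The bipartite graph of a relation. -/
def bip {U V : Type} (r : U → V → Prop) : SimpleGraph (U ⊕ V) where
  Adj x y := match x, y with
    | Sum.inl u, Sum.inr v => r u v
    | Sum.inr v, Sum.inl u => r u v
    | _, _ => False
  symm := ⟨by
    intro x y h
    cases x <;> cases y <;> exact h⟩
  loopless := ⟨by
    intro x h
    cases x <;> simp at h⟩

@[simp] theorem bip_inl_inl {U V : Type} (r : U → V → Prop) (u u' : U) :
    (bip r).Adj (Sum.inl u) (Sum.inl u') ↔ False := Iff.rfl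
@[simp] theorem bip_inr_inr {U V : Type} (r : U → V → Prop) (v v' : V) :
    (bip r).Adj (Sum.inr v) (Sum.inr v') ↔ False := Iff.rfl
@[simp] theorem bip_inl_inr {U V : Type} (r : U → V → Prop) (u : U) (v : V) :
    (bip r).Adj (Sum.inl u) (Sum.inr v) ↔ r u v := Iff.rfl
@[simp] theorem bip_inr_inl {U V : Type} (r : U → V → Prop) (u : U) (v : V) :
    (bip r).Adj (Sum.inr v) (Sum.inl u) ↔ r u v := Iff.rfl

theorem BP_of_Hyp (ζ : ℝ) (hζ : ζ = 1 ∨ ζ = -1) (g : ℕ → ℝ) (H : Hyp ζ g) : BP g := by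
  classical
  intro U V _ _ _ _ r _
  obtain ⟨ε, h1, h2, h3⟩ := H (U ⊕ V) (bip r)
  refine ⟨fun u => ε (Sum.inl u), fun v => ζ * ε (Sum.inr v), fun u => h1 _, ?_, ?_, ?_, ?_⟩
  · intro v
    show ζ * ε (Sum.inr v) = 1 ∨ ζ * ε (Sum.inr v) = -1
    rcases hζ with h | h <;> rcases h1 (Sum.inr v) with h' | h' <;> rw [h, h'] <;> norm_num
  · rw [← Finset.mul_sum, abs_mul]
    have hz : |ζ| = 1 := by rcases hζ with h | h <;> rw [h] <;> norm_num
    rw [hz, one_mul]
    rw [Fintype.sum_sum_type] at h2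
    have h4 : |∑ u : U, ε (Sum.inl u)| ≤ Fintype.card U := by
      calc |∑ u : U, ε (Sum.inl u)| ≤ ∑ u : U, |ε (Sum.inl u)| := abs_sum_le_sum_abs _ _
        _ ≤ ∑ _u : U, (1 : ℝ) := by
            apply sum_le_sum
            intro u _
            rcases h1 (Sum.inl u) with h | h <;> rw [h] <;> norm_num
        _ = Fintype.card U := by simp
    have h5 := abs_le.mp h2
    have h6 := abs_le.mp h4
    rw [abs_le]
    constructor <;> linarith [h5.1, h5.2, h6.1, h6.2]
  · intro u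
    have hf : univ.filter ((bip r).Adj (Sum.inl u)) = (univ.filter (fun v => r u v)).map
        ⟨Sum.inr, Sum.inr_injective⟩ := by
      ext w
      cases w with
      | inl u' => simp
      | inr v => simp
    have h4 := h3 (Sum.inl u)
    rw [hf, Finset.card_map, Finset.sum_map] at h4
    simp only [Function.Embedding.coeFn_mk] at h4
    rw [← Finset.mul_sum]
    calc _ ≤ _ := h4
      _ = _ := by ring
  · intro v
    have hf : univ.filter ((bip r).Adj (Sum.inr v)) = (univ.filter (fun u => r u v)).map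
        ⟨Sum.inl, Sum.inl_injective⟩ := by
      ext w
      cases w with
      | inl u => simp
      | inr v' => simp
    have h4 := h3 (Sum.inr v)
    rw [hf, Finset.card_map, Finset.sum_map] at h4
    simp only [Function.Embedding.coeFn_mk] at h4
    calc _ ≤ _ := h4
      _ = _ := by ring

/-- Signs from a finset. -/
theorem sign_sum {W : Type} (N : Finset W) (P : W → Prop) [DecidablePred P] :
    ∑ w ∈ N, (if P w then (1 : ℝ) else -1) = (N.filter P).card - (N.filter (fun w => ¬ P w)).card := by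
  rw [Finset.sum_ite]
  simp
  ring

/-- Transfer from graphs on `Fin n` to arbitrary finite vertex types. -/
theorem transfer {W : Type} [Fintype W] [DecidableEq W] (G : SimpleGraph W) [DecidableRel G.Adj] :
    ∃ (n : ℕ) (e : W ≃ Fin n) (G' : SimpleGraph (Fin n)) (_ : DecidableRel G'.Adj),
      ∀ v w, G'.Adj (e v) (e w) ↔ G.Adj v w := by
  classical
  let e := Fintype.equivFin W
  refine ⟨Fintype.card W, e, G.comap e.symm, inferInstance, ?_⟩
  intro v w
  simp

theorem signs_of_finset {W : Type} [Fintype W] [DecidableEq W] {n : ℕ} (e : W ≃ Fin n)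
    (G : SimpleGraph W) [DecidableRel G.Adj] (G' : SimpleGraph (Fin n)) [DecidableRel G'.Adj]
    (hG : ∀ v w, G'.Adj (e v) (e w) ↔ G.Adj v w) (A : Finset (Fin n))
    (hA : |((A.card : ℤ) - (Aᶜ.card : ℤ))| ≤ 1) :
    ∃ ε : W → ℝ, (∀ w, ε w = 1 ∨ ε w = -1) ∧ |∑ w, ε w| ≤ 1 ∧
      ∀ v, G'.degree (e v) = (univ.filter (G.Adj v)).card ∧
        ε v * ∑ w ∈ univ.filter (G.Adj v), ε w
          = (((G'.neighborFinset (e v)).filter (fun w => (w ∈ A ↔ e v ∈ A))).card : ℝ)
            - (((G'.neighborFinset (e v)).filter (fun w => ¬ (w ∈ A ↔ e v ∈ A))).card : ℝ) := by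
  classical
  refine ⟨fun w => if e w ∈ A then 1 else -1, ?_, ?_, ?_⟩
  · intro w
    by_cases h : e w ∈ A
    · left; simp [h]
    · right; simp [h]
  · have h1 : ∑ w : W, (if e w ∈ A then (1 : ℝ) else -1) = (A.card : ℝ) - (Aᶜ.card : ℝ) := by
      rw [Equiv.sum_comp e (fun x => if x ∈ A then (1 : ℝ) else -1), sign_sum]
      congr 2
      · congr 1; ext x; simp
      · congr 1; ext x; simp
    rw [h1]
    exact_mod_cast hA
  · intro v
    have hN : G'.neighborFinset (e v) = (univ.filter (G.Adj v)).map e.toEmbedding := by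
      ext x
      obtain ⟨w, rfl⟩ := e.surjective x
      simp [hG]
    constructor
    · rw [← SimpleGraph.card_neighborFinset_eq_degree, hN, Finset.card_map]
    · rw [← sign_sum, hN, Finset.sum_map, Finset.mul_sum]
      apply sum_congr rfl
      intro w _
      simp only [Equiv.coe_toEmbedding]
      by_cases h : e v ∈ A <;> by_cases h' : e w ∈ A <;> simp [h, h']

theorem Hyp_of_int (g : ℕ → ℝ)
    (H : ∀ (n : ℕ) (G : SimpleGraph (Fin n)) [DecidableRel G.Adj],
        ∃ A : Finset (Fin n),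
          |((A.card : ℤ) - (Aᶜ.card : ℤ))| ≤ 1 ∧
          ∀ v : Fin n,
            (((G.neighborFinset v).filter (fun w => (w ∈ A ↔ v ∈ A))).card : ℝ)
              ≥ (G.degree v : ℝ) / 2 - g (G.degree v)) : Hyp 1 g := by
  intro W _ _ G _
  obtain ⟨n, e, G', _, hG⟩ := transfer G
  obtain ⟨A, hA, hA'⟩ := H n G'
  obtain ⟨ε, h1, h2, h3⟩ := signs_of_finset e G G' hG A hA
  refine ⟨ε, h1, h2, ?_⟩
  intro v
  obtain ⟨h4, h5⟩ := h3 v
  have h6 := hA' (e v)
  rw [h5]
  have h7 := Finset.card_filter_add_card_filter_not (s := G'.neighborFinset (e v)) (fun w => (w ∈ A ↔ e v ∈ A))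
  rw [SimpleGraph.card_neighborFinset_eq_degree] at h7
  have h8 : (((G'.neighborFinset (e v)).filter (fun w => (w ∈ A ↔ e v ∈ A))).card : ℝ)
            + (((G'.neighborFinset (e v)).filter (fun w => ¬ (w ∈ A ↔ e v ∈ A))).card : ℝ)
            = (G'.degree (e v) : ℝ) := by exact_mod_cast h7
  rw [← h4]
  linarith

theorem Hyp_of_ext (g : ℕ → ℝ)
    (H : ∀ (n : ℕ) (G : SimpleGraph (Fin n)) [DecidableRel G.Adj],
        ∃ A : Finset (Fin n),
          |((A.card : ℤ) - (Aᶜ.card : ℤ))| ≤ 1 ∧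
          ∀ v : Fin n,
            (((G.neighborFinset v).filter (fun w => ¬ (w ∈ A ↔ v ∈ A))).card : ℝ)
              ≥ (G.degree v : ℝ) / 2 - g (G.degree v)) : Hyp (-1) g := by
  intro W _ _ G _
  obtain ⟨n, e, G', _, hG⟩ := transfer G
  obtain ⟨A, hA, hA'⟩ := H n G'
  obtain ⟨ε, h1, h2, h3⟩ := signs_of_finset e G G' hG A hA
  refine ⟨ε, h1, h2, ?_⟩
  intro v
  obtain ⟨h4, h5⟩ := h3 v
  have h6 := hA' (e v)
  rw [h5]
  have h7 := Finset.card_filter_add_card_filter_not (s := G'.neighborFinset (e v)) (fun w => (w ∈ A ↔ e v ∈ A))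
  rw [SimpleGraph.card_neighborFinset_eq_degree] at h7
  have h8 : (((G'.neighborFinset (e v)).filter (fun w => (w ∈ A ↔ e v ∈ A))).card : ℝ)
            + (((G'.neighborFinset (e v)).filter (fun w => ¬ (w ∈ A ↔ e v ∈ A))).card : ℝ)
            = (G'.degree (e v) : ℝ) := by exact_mod_cast h7
  rw [← h4]
  linarith

end Pool.Agent.H82.Bis
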