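import Mathlib
import Pool.Agent.H82.BisGraph

set_option autoImplicit false
open Finset Filter Topology

namespace Pool.Agent.H82.Bis

theorem ev_small (g : ℕ → ℝ) (hg : Tendsto (fun d : ℕ => g d / (d : ℝ)) atTop (𝓝 0))
    (η : ℝ) (hη : 0 < η) (K : ℕ) : ∀ᶠ M : ℕ in atTop, 2 * g (M * K) ≤ η * M := by
  rcases Nat.eq_zero_or_pos K with hK | hK
  · subst hK
    simp only [mul_zero]
    have h1 : Tendsto (fun M : ℕ => η * (M : ℝ)) atTop atTop :=
      Tendsto.const_mul_atTop hη tendsto_natCast_atTop_atTop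
    exact h1.eventually_ge_atTop _
  · have h1 : Tendsto (fun M : ℕ => M * K) atTop atTop :=
      tendsto_id.atTop_mul_const' hK
    have h2 := hg.comp h1
    have hK' : (0 : ℝ) < K := by exact_mod_cast hK
    have h3 : ∀ᶠ M : ℕ in atTop, ((fun d : ℕ => g d / (d : ℝ)) ∘ fun M => M * K) M < η / (2 * K) :=
      h2.eventually_lt_const (by positivity)
    filter_upwards [h3, eventually_ge_atTop 1] with M hM hM1
    simp only [Function.comp_apply] at hM
    have hM' : (0 : ℝ) < M := by exact_mod_cast hM1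
    have h4 : (0 : ℝ) < ((M * K : ℕ) : ℝ) := by push_cast; positivity
    rw [div_lt_iff₀ h4] at hM
    push_cast at hM
    have h5 : η / (2 * K) * (M * K) = η * M / 2 := by
      field_simp
    rw [h5] at hM
    linarith

theorem BP_false (g : ℕ → ℝ)
    (hg : Tendsto (fun d : ℕ => g d / (d : ℝ)) atTop (𝓝 0)) (H : BP g) : False := by
  classical
  -- choice of `p`
  obtain ⟨p, hp100, hp⟩ : ∃ p : ℕ, 100 ≤ p ∧ 2 * g (3 * p) ≤ (p : ℝ) / 100 := by
    have h1 : ∀ᶠ d : ℕ in atTop, g d / (d : ℝ) < 1 / 600 := hg.eventually_lt_const (by norm_num)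
    obtain ⟨N, hN⟩ := eventually_atTop.mp h1
    refine ⟨max 100 N, le_max_left _ _, ?_⟩
    have h2 := hN (3 * max 100 N) (by have := le_max_right 100 N; omega)
    have h3 : (0 : ℝ) < ((3 * max 100 N : ℕ) : ℝ) := by
      have := le_max_left 100 N
      have h4 : 0 < 3 * max 100 N := by omega
      exact_mod_cast h4
    rw [div_lt_iff₀ h3] at h2
    have h4 : ((3 * max 100 N : ℕ) : ℝ) = 3 * ((max 100 N : ℕ) : ℝ) := by push_cast; ring
    rw [h4] at h2
    linarith
  -- the hypergraph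
  obtain ⟨C, _, _, L, F, hF, hFF, hcol⟩ := exists_hypergraph (2 * p)
  -- the parameters `η`, `R`
  set Q : ℝ := 2 * Fintype.card C + 8 * p * L with hQ
  have hQ0 : 0 ≤ Q := by positivity
  set η : ℝ := 1 / (10 * (Q + 1)) with hηdef
  have hη0 : 0 < η := by positivity
  have hη1 : η ≤ 1 / 10 := by
    rw [hηdef]
    apply one_div_le_one_div_of_le (by norm_num)
    linarith
  have hηQ : η * Q ≤ 1 / 10 := by
    rw [hηdef, one_div, ← div_eq_inv_mul, div_le_div_iff₀ (by positivity) (by norm_num)]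
    linarith
  obtain ⟨R, hR⟩ := exists_nat_ge (1 / η)
  have hηR : 1 ≤ η * R := by
    rw [div_le_iff₀ hη0] at hR
    linarith
  have hR1 : 1 ≤ R := by
    rcases Nat.eq_zero_or_pos R with h | h
    · subst h; norm_num at hηR
    · exact h
  have hR1' : (1 : ℝ) ≤ R := by exact_mod_cast hR1
  -- the choice of `M`
  let e : Fin L → ℕ := fun i => R ^ (L - 1 - (i : ℕ))
  let K : C → ℕ := fun c => ∑ i ∈ univ.filter (fun i => c ∈ F i), e i
  have hM1 : ∀ᶠ M : ℕ in atTop, ∀ i : Fin L, 2 * g (M * e i) ≤ η * M :=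
    eventually_all.mpr (fun i => ev_small g hg η hη0 (e i))
  have hM2 : ∀ᶠ M : ℕ in atTop, ∀ c : C, 2 * g (M * K c) ≤ η * M :=
    eventually_all.mpr (fun c => ev_small g hg η hη0 (K c))
  have hM3 : ∀ᶠ M : ℕ in atTop, (1 + (Fintype.card C + L * p : ℝ)) ≤ η * M := by
    have h1 : Tendsto (fun M : ℕ => η * (M : ℝ)) atTop atTop :=
      Tendsto.const_mul_atTop hη0 tendsto_natCast_atTop_atTop
    exact h1.eventually_ge_atTop _
  obtain ⟨M, hMa, hMb, hMc, hMd⟩ := (hM1.and (hM2.and (hM3.and (eventually_ge_atTop 1)))).exists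
  have hMpos : (0 : ℝ) < M := by exact_mod_cast hMd
  let m : Fin L → ℕ := fun i => M * e i
  -- the bipartite graph
  let r : (C ⊕ (Fin L × Fin p)) → (Σ i : Fin L, Fin (m i)) → Prop :=
    fun u v => Sum.elim (fun c => c ∈ F v.1) (fun t => t.1 = v.1) u
  obtain ⟨x, y, hx, hy, hbal, hU, hV⟩ := H (C ⊕ (Fin L × Fin p)) (Σ i : Fin L, Fin (m i)) r
  -- sums over neighbourhoods
  have sumV : ∀ (φ : (C ⊕ (Fin L × Fin p)) → ℝ) (i : Fin L) (k : Fin (m i)),
      ∑ u ∈ univ.filter (fun u => r u ⟨i, k⟩), φ u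
        = ∑ c ∈ F i, φ (Sum.inl c) + ∑ t : Fin p, φ (Sum.inr (i, t)) := by
    intro φ i k
    rw [Finset.sum_filter, Fintype.sum_sum_type]
    congr 1
    · rw [← Finset.sum_filter]
      apply sum_congr _ (fun _ _ => rfl)
      ext c
      rw [Finset.mem_filter]
      exact ⟨fun h => h.2, fun h => ⟨mem_univ _, h⟩⟩
    · rw [Fintype.sum_prod_type]
      rw [Finset.sum_eq_single i]
      · apply sum_congr rfl
        intro t _
        simp [r]
      · intro j _ hj
        apply sum_eq_zero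
        intro t _
        simp [r, hj]
      · intro h; exact absurd (mem_univ i) h
  have sumC : ∀ (φ : (Σ i : Fin L, Fin (m i)) → ℝ) (c : C),
      ∑ v ∈ univ.filter (fun v => r (Sum.inl c) v), φ v
        = ∑ i ∈ univ.filter (fun i => c ∈ F i), ∑ k : Fin (m i), φ ⟨i, k⟩ := by
    intro φ c
    rw [Finset.sum_filter, Fintype.sum_sigma, Finset.sum_filter]
    apply sum_congr rfl
    intro i _
    by_cases h : c ∈ F i
    · simp [r, h]
    · simp [r, h]
  have sumP : ∀ (φ : (Σ i : Fin L, Fin (m i)) → ℝ) (j : Fin L) (t : Fin p),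
      ∑ v ∈ univ.filter (fun v => r (Sum.inr (j, t)) v), φ v
        = ∑ k : Fin (m j), φ ⟨j, k⟩ := by
    intro φ j t
    rw [Finset.sum_filter, Fintype.sum_sigma]
    rw [Finset.sum_eq_single j]
    · apply sum_congr rfl
      intro k _
      simp [r]
    · intro i _ hi
      apply sum_eq_zero
      intro k _
      have : ¬ (j = i) := fun h => hi h.symm
      simp [r, this]
    · intro h; exact absurd (mem_univ j) h
  -- cards
  have cardV : ∀ (i : Fin L) (k : Fin (m i)), (univ.filter (fun u => r u ⟨i, k⟩)).card = 3 * p := by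
    intro i k
    have h1 := sumV (fun _ => 1) i k
    simp only [Finset.sum_const, nsmul_eq_mul, mul_one, hF i, Finset.card_univ, Fintype.card_fin] at h1
    have h2 : ((univ.filter (fun u => r u ⟨i, k⟩)).card : ℝ) = ((3 * p : ℕ) : ℝ) := by
      rw [h1]; push_cast; ring
    exact_mod_cast h2
  have cardC : ∀ (c : C), (univ.filter (fun v => r (Sum.inl c) v)).card = M * K c := by
    intro c
    have h1 := sumC (fun _ => 1) c
    simp only [Finset.sum_const, nsmul_eq_mul, mul_one, Finset.card_univ, Fintype.card_fin] at h1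
    have h2 : ((univ.filter (fun v => r (Sum.inl c) v)).card : ℝ) = ((M * K c : ℕ) : ℝ) := by
      rw [h1]
      simp only [K, m]
      push_cast
      rw [Finset.mul_sum]
    exact_mod_cast h2
  have cardP : ∀ (j : Fin L) (t : Fin p), (univ.filter (fun v => r (Sum.inr (j, t)) v)).card = M * e j := by
    intro j t
    have h1 := sumP (fun _ => 1) j t
    simp only [Finset.sum_const, nsmul_eq_mul, mul_one, Finset.card_univ, Fintype.card_fin] at h1
    exact_mod_cast h1
  -- data for the core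
  set δ : Fin L → ℝ := fun i => ∑ k : Fin (m i), y ⟨i, k⟩ with hδ
  set b : Fin L → ℝ := fun i => ∑ t : Fin p, x (Sum.inr (i, t)) with hb
  have hT0 : 0 ≤ η * M := by positivity
  have hy1 : ∀ v, |y v| ≤ 1 := by
    intro v; rcases hy v with h | h <;> rw [h] <;> norm_num
  have hx1 : ∀ u, |x u| ≤ 1 := by
    intro v; rcases hx v with h | h <;> rw [h] <;> norm_num
  have he1 : ∀ i, (1 : ℝ) ≤ (e i : ℝ) := by
    intro i
    have : 1 ≤ e i := Nat.one_le_pow _ _ hR1
    exact_mod_cast this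
  have hsign : ∀ {n : ℕ} (f : Fin n → ℝ), (∀ k, f k = 1 ∨ f k = -1) → ∑ k, f k < n → ∃ k, f k = -1 := by
    intro n f hf hlt
    by_contra hcon
    push Not at hcon
    have : ∀ k, f k = 1 := fun k => (hf k).resolve_right (hcon k)
    simp [this] at hlt
  have hsign' : ∀ {n : ℕ} (f : Fin n → ℝ), (∀ k, f k = 1 ∨ f k = -1) → -(n : ℝ) < ∑ k, f k → ∃ k, f k = 1 := by
    intro n f hf hlt
    by_contra hcon
    push Not at hcon
    have : ∀ k, f k = -1 := fun k => (hf k).resolve_left (hcon k)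
    simp [this] at hlt
  have hP : ∀ (i : Fin L) (t : Fin p), -(η * M) ≤ x (Sum.inr (i, t)) * δ i := by
    intro i t
    have h1 := hU (Sum.inr (i, t))
    rw [cardP, sumP] at h1
    have h2 := hMa i
    linarith
  refine core F (p : ℝ) (fun c => x (Sum.inl c)) b δ (fun i => (m i : ℝ)) (2 * g (3 * p)) (η * M) η
    (fun c => hx _) ?_ hFF ?_ ?_ ?_ ?_ ?_ ?_ ?_ ?_ ?_ ?_ hT0 ?_ ?_ ?_ hp ?_ ?_ hη1
  · intro i
    rw [hF i]; push_cast; ring
  · intro i
    calc |b i| ≤ ∑ t : Fin p, |x (Sum.inr (i, t))| := abs_sum_le_sum_abs _ _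
      _ ≤ ∑ _t : Fin p, (1 : ℝ) := sum_le_sum (fun t _ => hx1 _)
      _ = p := by simp
  · intro i hi
    have : ∀ t : Fin p, x (Sum.inr (i, t)) = -1 := by
      intro t
      rcases hx (Sum.inr (i, t)) with h | h
      · have := hP i t
        rw [h, one_mul] at this
        linarith
      · exact h
    simp only [hb, this]
    simp
  · intro i hi
    have : ∀ t : Fin p, x (Sum.inr (i, t)) = 1 := by
      intro t
      rcases hx (Sum.inr (i, t)) with h | h
      · exact h
      · have := hP i t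
        rw [h] at this
        linarith
    simp only [hb, this]
    simp
  · intro i
    calc |δ i| ≤ ∑ k : Fin (m i), |y ⟨i, k⟩| := abs_sum_le_sum_abs _ _
      _ ≤ ∑ _k : Fin (m i), (1 : ℝ) := sum_le_sum (fun t _ => hy1 _)
      _ = m i := by simp
  · intro i hi
    obtain ⟨k, hk⟩ := hsign (fun k => y ⟨i, k⟩) (fun k => hy _) hi
    have h1 := hV ⟨i, k⟩
    rw [cardV, sumV] at h1
    rw [hk] at h1
    simp only [hb]
    linarith
  · intro i hi
    obtain ⟨k, hk⟩ := hsign' (fun k => y ⟨i, k⟩) (fun k => hy _) hi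
    have h1 := hV ⟨i, k⟩
    rw [cardV, sumV] at h1
    rw [hk] at h1
    simp only [hb]
    linarith
  · obtain ⟨j, hj⟩ := hcol (fun c => x (Sum.inl c)) (fun c => hx _)
    refine ⟨j, ?_⟩
    rw [hj]; push_cast; ring
  · intro c hc
    have h1 := hU (Sum.inl c)
    rw [cardC, sumC, hc, one_mul] at h1
    have h2 := hMb c
    simp only [hδ]
    linarith
  · intro c hc
    have h1 := hU (Sum.inl c)
    rw [cardC, sumC, hc] at h1
    have h2 := hMb c
    simp only [hδ]
    linarith
  · have h1 : ∑ i, δ i = ∑ v, y v := by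
      rw [Fintype.sum_sigma]
    rw [h1]
    refine le_trans hbal ?_
    refine le_trans ?_ hMc
    simp only [Fintype.card_sum, Fintype.card_prod, Fintype.card_fin]
    push_cast
    linarith
  · intro i
    have h1 : (M : ℝ) ≤ (m i : ℝ) := by
      simp only [m]; push_cast
      have := he1 i
      nlinarith
    exact mul_le_mul_of_nonneg_left h1 hη0.le
  · intro i j hij
    have h1 : e i = e j * R ^ ((j : ℕ) - i) := by
      simp only [e]
      rw [← pow_add]
      congr 1
      have := j.2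
      have h2 : (i : ℕ) < j := hij
      omega
    have h2 : (R : ℝ) ≤ (R : ℝ) ^ ((j : ℕ) - i) := by
      have h3 : (i : ℕ) < j := hij
      have h4 : 1 ≤ (j : ℕ) - i := by omega
      calc (R : ℝ) = (R : ℝ) ^ 1 := (pow_one _).symm
        _ ≤ _ := pow_le_pow_right₀ hR1' h4
    have h3 : (e i : ℝ) = (e j : ℝ) * (R : ℝ) ^ ((j : ℕ) - i) := by
      rw [h1]; push_cast; ring
    simp only [m]
    push_cast
    rw [h3]
    have h5 : (0 : ℝ) ≤ e j := by positivity
    have h6 : (e j : ℝ) ≤ η * (e j * (R : ℝ) ^ ((j : ℕ) - i)) := by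
      have h7 : 1 ≤ η * (R : ℝ) ^ ((j : ℕ) - i) :=
        le_trans hηR (mul_le_mul_of_nonneg_left h2 hη0.le)
      calc (e j : ℝ) = e j * 1 := (mul_one _).symm
        _ ≤ e j * (η * (R : ℝ) ^ ((j : ℕ) - i)) := mul_le_mul_of_nonneg_left h7 h5
        _ = _ := by ring
    calc (M : ℝ) * e j ≤ M * (η * (e j * (R : ℝ) ^ ((j : ℕ) - i))) :=
          mul_le_mul_of_nonneg_left h6 hMpos.le
      _ = _ := by ring
  · intro i
    have := he1 i
    simp only [m]; push_cast
    nlinarith
  · exact_mod_cast hp100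
  · exact hηQ

end Pool.Agent.H82.Bis
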