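import Mathlib

set_option autoImplicit false

namespace Pool.Agent.H82.Paley

open Finset Polynomial

variable {F : Type*} [Field F] {ι : Type*} [Fintype ι]

/-- Weights on the index set that annihilate all monomials of total degree less than `j`
in the two coordinate functions `s`, `t`. -/
def N (s t : ι → F) (j : ℕ) : Submodule F (ι → F) where
  carrier := {c | ∀ u v : ℕ, u + v < j → ∑ i, c i * (s i ^ u * t i ^ v) = 0}
  add_mem' := by
    intro c d hc hd u v huv
    have h1 := hc u v huv
    have h2 := hd u v huv
    simp only [Pi.add_apply, add_mul, Finset.sum_add_distrib, h1, h2, add_zero]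
  zero_mem' := by
    intro u v _
    simp
  smul_mem' := by
    intro r c hc u v huv
    have h1 := hc u v huv
    simp only [Pi.smul_apply, smul_eq_mul, mul_assoc, ← Finset.mul_sum, h1, mul_zero]

theorem mem_N {s t : ι → F} {j : ℕ} {c : ι → F} :
    c ∈ N s t j ↔ ∀ u v : ℕ, u + v < j → ∑ i, c i * (s i ^ u * t i ^ v) = 0 := Iff.rfl

theorem N_anti {s t : ι → F} {j j' : ℕ} (h : j ≤ j') {c : ι → F} (hc : c ∈ N s t j') :
    c ∈ N s t j := fun u v huv => hc u v (lt_of_lt_of_le huv h)

theorem mul_s_mem {s t : ι → F} {j : ℕ} {c : ι → F} (hc : c ∈ N s t (j + 1)) :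
    (fun i => c i * s i) ∈ N s t j := by
  intro u v huv
  have := hc (u + 1) v (by omega)
  rw [← this]
  refine Finset.sum_congr rfl fun i _ => ?_
  ring

theorem mul_t_mem {s t : ι → F} {j : ℕ} {c : ι → F} (hc : c ∈ N s t (j + 1)) :
    (fun i => c i * t i) ∈ N s t j := by
  intro u v huv
  have := hc u (v + 1) (by omega)
  rw [← this]
  refine Finset.sum_congr rfl fun i _ => ?_
  ring

theorem mul_w_mem {s t : ι → F} {j : ℕ} {c : ι → F} (hc : c ∈ N s t (j + 1)) :
    (fun i => c i * (s i - t i)) ∈ N s t j := by
  have h := (N s t j).sub_mem (mul_s_mem hc) (mul_t_mem hc)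
  have e : (fun i => c i * (s i - t i)) = (fun i => c i * s i) - (fun i => c i * t i) := by
    funext i
    simp only [Pi.sub_apply]
    ring
  rw [e]
  exact h

theorem mul_xs_mem {s t : ι → F} {j : ℕ} {c : ι → F} (x : F) (hc : c ∈ N s t (j + 1)) :
    (fun i => c i * (x - s i)) ∈ N s t j := by
  have h := (N s t j).sub_mem ((N s t j).smul_mem x (N_anti (Nat.le_succ j) hc)) (mul_s_mem hc)
  have e : (fun i => c i * (x - s i)) = x • c - (fun i => c i * s i) := by
    funext i
    simp only [Pi.sub_apply, Pi.smul_apply, smul_eq_mul]
    ring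
  rw [e]
  exact h

theorem mul_xt_mem {s t : ι → F} {j : ℕ} {c : ι → F} (x : F) (hc : c ∈ N s t (j + 1)) :
    (fun i => c i * (x - t i)) ∈ N s t j := by
  have h := (N s t j).sub_mem ((N s t j).smul_mem x (N_anti (Nat.le_succ j) hc)) (mul_t_mem hc)
  have e : (fun i => c i * (x - t i)) = x • c - (fun i => c i * t i) := by
    funext i
    simp only [Pi.sub_apply, Pi.smul_apply, smul_eq_mul]
    ring
  rw [e]
  exact h

theorem mul_w_pow_mem {s t : ι → F} (l : ℕ) : ∀ {j : ℕ} {c : ι → F}, c ∈ N s t (j + l) →
    (fun i => c i * (s i - t i) ^ l) ∈ N s t j := by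
  induction l with
  | zero => intro j c hc; simpa using hc
  | succ l ih =>
    intro j c hc
    have h1 : (fun i => c i * (s i - t i)) ∈ N s t (j + l) := mul_w_mem hc
    have h2 := ih h1
    have e : (fun i => c i * (s i - t i) ^ (l + 1)) =
        (fun i => c i * (s i - t i) * (s i - t i) ^ l) := by
      funext i
      ring
    rw [e]
    exact h2

theorem mul_t_pow_mem {s t : ι → F} (l : ℕ) : ∀ {j : ℕ} {c : ι → F}, c ∈ N s t (j + l) →
    (fun i => c i * t i ^ l) ∈ N s t j := by
  induction l with
  | zero => intro j c hc; simpa using hc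
  | succ l ih =>
    intro j c hc
    have h1 : (fun i => c i * t i) ∈ N s t (j + l) := mul_t_mem hc
    have h2 := ih h1
    have e : (fun i => c i * t i ^ (l + 1)) = (fun i => c i * t i * t i ^ l) := by
      funext i
      ring
    rw [e]
    exact h2

/-- Shifting both coordinates does not change the top moment. -/
theorem sum_shift {s t : ι → F} (x : F) (a b : ℕ) : ∀ {c : ι → F}, c ∈ N s t (a + b) →
    ∑ i, c i * ((x - s i) ^ a * (x - t i) ^ b) = (-1) ^ (a + b) * ∑ i, c i * (s i ^ a * t i ^ b) := by
  induction a with
  | zero =>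
    induction b with
    | zero => intro c _; simp
    | succ b ih =>
      intro c hc
      have h1 : (fun i => c i * t i) ∈ N s t (0 + b) := mul_t_mem hc
      have h2 := ih h1
      have h3 : ∑ i, c i * ((x - s i) ^ 0 * (x - t i) ^ b) = 0 := by
        have hcc : c ∈ N s t (0 + b + 1) := hc
        clear h2 h1 ih hc
        have : ∀ (b : ℕ) {c : ι → F}, c ∈ N s t (0 + b + 1) →
            ∑ i, c i * ((x - s i) ^ 0 * (x - t i) ^ b) = 0 := by
          intro b
          induction b with
          | zero =>
            intro c hc
            have := hc 0 0 (by omega)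
            simpa using this
          | succ b ih =>
            intro c hc
            have := ih (mul_xt_mem x hc)
            rw [← this]
            refine Finset.sum_congr rfl fun i _ => ?_
            ring
        exact this b hcc
      have h4 : ∑ i, c i * ((x - s i) ^ 0 * (x - t i) ^ (b + 1)) =
          x * ∑ i, c i * ((x - s i) ^ 0 * (x - t i) ^ b)
            - ∑ i, (c i * t i) * ((x - s i) ^ 0 * (x - t i) ^ b) := by
        rw [Finset.mul_sum, ← Finset.sum_sub_distrib]
        refine Finset.sum_congr rfl fun i _ => ?_
        ring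
      rw [h4, h3, h2, mul_zero, zero_sub, ← neg_mul]
      congr 1
      · ring
      · refine Finset.sum_congr rfl fun i _ => ?_
        ring
  | succ a ih =>
    intro c hc
    have hc' : c ∈ N s t (a + b + 1) := by
      have : a + 1 + b = a + b + 1 := by ring
      rwa [this] at hc
    have h1 : (fun i => c i * s i) ∈ N s t (a + b) := mul_s_mem hc'
    have h2 := ih h1
    have h3 : ∑ i, c i * ((x - s i) ^ a * (x - t i) ^ b) = 0 := by
      have : ∀ (a b : ℕ) {c : ι → F}, c ∈ N s t (a + b + 1) →
          ∑ i, c i * ((x - s i) ^ a * (x - t i) ^ b) = 0 := by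
        intro a
        induction a with
        | zero =>
          intro b
          induction b with
          | zero =>
            intro c hc
            have := hc 0 0 (by omega)
            simpa using this
          | succ b ih =>
            intro c hc
            have := ih (mul_xt_mem x hc)
            rw [← this]
            refine Finset.sum_congr rfl fun i _ => ?_
            ring
        | succ a ih =>
          intro b c hc
          have hc' : c ∈ N s t (a + b + 1 + 1) := by
            have : a + 1 + b + 1 = a + b + 1 + 1 := by ring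
            rwa [this] at hc
          have := ih b (mul_xs_mem x hc')
          rw [← this]
          refine Finset.sum_congr rfl fun i _ => ?_
          ring
      exact this a b hc'
    have h4 : ∑ i, c i * ((x - s i) ^ (a + 1) * (x - t i) ^ b) =
        x * ∑ i, c i * ((x - s i) ^ a * (x - t i) ^ b)
          - ∑ i, (c i * s i) * ((x - s i) ^ a * (x - t i) ^ b) := by
      rw [Finset.mul_sum, ← Finset.sum_sub_distrib]
      refine Finset.sum_congr rfl fun i _ => ?_
      ring
    rw [h4, h3, h2, mul_zero, zero_sub, ← neg_mul]
    congr 1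
    · ring
    · refine Finset.sum_congr rfl fun i _ => ?_
      ring

theorem sum_shift_zero {s t : ι → F} (x : F) {a b j : ℕ} {c : ι → F} (hc : c ∈ N s t j)
    (h : a + b < j) : ∑ i, c i * ((x - s i) ^ a * (x - t i) ^ b) = 0 := by
  rw [sum_shift x a b (N_anti h.le hc), hc a b h, mul_zero]

end Pool.Agent.H82.Paley
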