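import Mathlib
import Pool.Agent.H82.PaleyAbs

set_option autoImplicit false

namespace Pool.Agent.H82.Paley

open Finset Polynomial

variable {F : Type*} [Field F] {ι : Type*} [Fintype ι]

/-- The auxiliary polynomial. -/
noncomputable def Psi (s t : ι → F) (c : ι → F) (e₁ e₂ : ℕ) : F[X] :=
  ∑ i, C (c i) * ((X - C (s i)) ^ e₁ * (X - C (t i)) ^ e₂)

theorem coeff_X_sub_C_pow' (r : F) (n k : ℕ) :
    ((X - C r) ^ n).coeff k = (-r) ^ (n - k) * (n.choose k : F) := by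
  rw [sub_eq_add_neg, ← C_neg, coeff_X_add_C_pow]

theorem Psi_coeff_high {s t : ι → F} {c : ι → F} {A e₁ e₂ n : ℕ} (hc : c ∈ N s t A)
    (hn : e₁ + e₂ < n + A) : (Psi s t c e₁ e₂).coeff n = 0 := by
  unfold Psi
  rw [finsetSum_coeff]
  simp only [coeff_C_mul]
  simp only [coeff_mul, coeff_X_sub_C_pow']
  simp only [Finset.mul_sum]
  rw [Finset.sum_comm]
  refine Finset.sum_eq_zero fun x hx => ?_
  rw [Finset.HasAntidiagonal.mem_antidiagonal] at hx
  by_cases h1 : e₁ < x.1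
  · refine Finset.sum_eq_zero fun i _ => ?_
    rw [Nat.choose_eq_zero_of_lt h1]
    simp
  by_cases h2 : e₂ < x.2
  · refine Finset.sum_eq_zero fun i _ => ?_
    rw [Nat.choose_eq_zero_of_lt h2]
    simp
  push Not at h1 h2
  have h3 := hc (e₁ - x.1) (e₂ - x.2) (by omega)
  have h4 : ∑ i, c i * ((-s i) ^ (e₁ - x.1) * ((e₁.choose x.1 : ℕ) : F) *
      ((-t i) ^ (e₂ - x.2) * ((e₂.choose x.2 : ℕ) : F))) =
      ((-1) ^ (e₁ - x.1) * (-1) ^ (e₂ - x.2) * ((e₁.choose x.1 : ℕ) : F) * ((e₂.choose x.2 : ℕ) : F)) *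
      ∑ i, c i * (s i ^ (e₁ - x.1) * t i ^ (e₂ - x.2)) := by
    rw [Finset.mul_sum]
    refine Finset.sum_congr rfl fun i _ => ?_
    rw [neg_pow (s i), neg_pow (t i)]
    ring
  rw [h4, h3, mul_zero]

/-- The local vanishing of the auxiliary polynomial. -/
theorem Psi_dvd {s t : ι → F} {c : ι → F} {a b κ m : ℕ} (hκ : 1 ≤ κ)
    (hc : c ∈ N s t (a + b)) (ha : m ≤ a + 1) (hb : m ≤ b + 1) (x : F)
    (hx : ∀ i, (x - s i) ^ (2 * κ - 1) * (x - t i) ^ (κ - 1) = 1) :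
    (X - C x) ^ m ∣ Psi s t c (a + (2 * κ - 1)) (b + (κ - 1)) -
      C ((-1) ^ (a + b) * ∑ i, c i * (s i ^ a * t i ^ b)) := by
  rw [X_sub_C_pow_dvd_iff, X_pow_dvd_iff]
  intro d hd
  rw [sub_comp, C_comp, coeff_sub]
  unfold Psi
  rw [Polynomial.sum_comp, finsetSum_coeff]
  simp only [mul_comp, C_comp, pow_comp, sub_comp, X_comp]
  have e1 : ∀ r : F, (X + C x - C r : F[X]) = X + C (x - r) := by
    intro r
    rw [C_sub]
    ring
  simp only [e1, coeff_C_mul]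
  simp only [coeff_mul, coeff_X_add_C_pow]
  have key : ∀ i, (∑ y ∈ antidiagonal d, (x - s i) ^ (a + (2 * κ - 1) - y.1) *
      (((a + (2 * κ - 1)).choose y.1 : ℕ) : F) * ((x - t i) ^ (b + (κ - 1) - y.2) *
        (((b + (κ - 1)).choose y.2 : ℕ) : F))) =
      ∑ y ∈ antidiagonal d, ((((a + (2 * κ - 1)).choose y.1 : ℕ) : F) *
        (((b + (κ - 1)).choose y.2 : ℕ) : F)) * ((x - s i) ^ (a - y.1) * (x - t i) ^ (b - y.2)) := by
    intro i
    refine Finset.sum_congr rfl fun y hy => ?_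
    rw [Finset.HasAntidiagonal.mem_antidiagonal] at hy
    have e2 : a + (2 * κ - 1) - y.1 = (a - y.1) + (2 * κ - 1) := by omega
    have e3 : b + (κ - 1) - y.2 = (b - y.2) + (κ - 1) := by omega
    rw [e2, e3, pow_add, pow_add]
    have := hx i
    calc (x - s i) ^ (a - y.1) * (x - s i) ^ (2 * κ - 1) * (((a + (2 * κ - 1)).choose y.1 : ℕ) : F) *
          ((x - t i) ^ (b - y.2) * (x - t i) ^ (κ - 1) * (((b + (κ - 1)).choose y.2 : ℕ) : F))
        = ((((a + (2 * κ - 1)).choose y.1 : ℕ) : F) *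
        (((b + (κ - 1)).choose y.2 : ℕ) : F)) * ((x - s i) ^ (a - y.1) * (x - t i) ^ (b - y.2)) *
          ((x - s i) ^ (2 * κ - 1) * (x - t i) ^ (κ - 1)) := by ring
      _ = _ := by rw [this, mul_one]
  simp only [key]
  simp only [Finset.mul_sum]
  rw [Finset.sum_comm]
  have key2 : ∀ y ∈ antidiagonal d, ∑ i, c i * (((((a + (2 * κ - 1)).choose y.1 : ℕ) : F) *
        (((b + (κ - 1)).choose y.2 : ℕ) : F)) * ((x - s i) ^ (a - y.1) * (x - t i) ^ (b - y.2))) =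
        ((((a + (2 * κ - 1)).choose y.1 : ℕ) : F) *
        (((b + (κ - 1)).choose y.2 : ℕ) : F)) *
          ∑ i, c i * ((x - s i) ^ (a - y.1) * (x - t i) ^ (b - y.2)) := by
    intro y _
    rw [Finset.mul_sum]
    refine Finset.sum_congr rfl fun i _ => ?_
    ring
  rw [Finset.sum_congr rfl key2]
  rcases Nat.eq_zero_or_pos d with rfl | hdpos
  · have ha0 : antidiagonal 0 = {((0 : ℕ), (0 : ℕ))} := rfl
    rw [ha0]
    simp only [sum_singleton, Nat.choose_zero_right, Nat.cast_one, one_mul,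
      Nat.sub_zero, coeff_C_zero]
    rw [sum_shift x a b hc, Finset.mul_sum, sub_self]
  · rw [coeff_C, if_neg (by omega), sub_zero]
    refine Finset.sum_eq_zero fun y hy => ?_
    rw [Finset.HasAntidiagonal.mem_antidiagonal] at hy
    rw [sum_shift_zero x hc (by omega), mul_zero]

theorem Psi_const {s t : ι → F} {c : ι → F} {a b κ m Q : ℕ} (hκ : 1 ≤ κ) (hκQ : 3 * κ = Q + 1)
    (hc : c ∈ N s t (a + b)) (ha : m ≤ a + 1) (hb : m ≤ b + 1) (S : Finset F)
    (hx : ∀ x ∈ S, ∀ i, (x - s i) ^ (2 * κ - 1) * (x - t i) ^ (κ - 1) = 1)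
    (hcard : Q ≤ m * S.card) :
    Psi s t c (a + (2 * κ - 1)) (b + (κ - 1)) =
      C ((-1) ^ (a + b) * ∑ i, c i * (s i ^ a * t i ^ b)) := by
  set P := Psi s t c (a + (2 * κ - 1)) (b + (κ - 1)) -
      C ((-1) ^ (a + b) * ∑ i, c i * (s i ^ a * t i ^ b)) with hP
  suffices h : P = 0 by
    rw [hP, sub_eq_zero] at h
    exact h
  have hdvd : ∏ x ∈ S, (X - C x) ^ m ∣ P := by
    refine Finset.prod_dvd_of_coprime ?_ ?_
    · intro x _ y _ hxy
      exact IsCoprime.pow (isCoprime_X_sub_C_of_isUnit_sub (sub_ne_zero.mpr hxy).isUnit)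
    · intro x hxS
      exact Psi_dvd hκ hc ha hb x (hx x hxS)
  have hdeg : P.degree < Q := by
    rw [degree_lt_iff_coeff_zero]
    intro n hn
    rw [hP, coeff_sub, Psi_coeff_high hc (by omega), coeff_C, if_neg (by omega), sub_zero]
  have hdegprod : (∏ x ∈ S, (X - C x) ^ m : F[X]).degree = (m * S.card : ℕ) := by
    rw [degree_prod]
    simp only [degree_pow, degree_X_sub_C]
    rw [Finset.sum_const]
    simp only [nsmul_eq_mul, mul_one]
    push_cast
    ring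
  exact eq_zero_of_dvd_of_degree_lt hdvd (by
    rw [hdegprod]
    exact lt_of_lt_of_le hdeg (by exact_mod_cast hcard))

end Pool.Agent.H82.Paley
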