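import Mathlib
import Pool.Agent.H82.PaleyKey

set_option autoImplicit false

namespace Pool.Agent.H82.Paley

open Finset Polynomial

variable {F : Type*} [Field F] {ι : Type*} [Fintype ι]

theorem newton_indep (r : ℕ → F) (k : ℕ) : ∀ (γ : ℕ → F),
    (∑ l ∈ range k, C (γ l) * ∏ i ∈ range l, (X - C (r i)) : F[X]) = 0 → ∀ l < k, γ l = 0 := by
  induction k with
  | zero => intro γ _ l hl; omega
  | succ k ih =>
    intro γ h l hl
    have hdeg : ∀ l : ℕ, (∏ i ∈ range l, (X - C (r i)) : F[X]).natDegree = l := by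
      intro l
      rw [natDegree_prod_of_monic _ _ (fun i _ => monic_X_sub_C _)]
      simp
    have hmon : ∀ l : ℕ, (∏ i ∈ range l, (X - C (r i)) : F[X]).Monic := by
      intro l
      exact monic_prod_of_monic _ _ (fun i _ => monic_X_sub_C _)
    have hk : γ k = 0 := by
      have h1 := congrArg (fun P : F[X] => P.coeff k) h
      simp only [sum_range_succ, coeff_add, coeff_zero, finsetSum_coeff, coeff_C_mul] at h1
      have h2 : ∀ l ∈ range k, γ l * (∏ i ∈ range l, (X - C (r i)) : F[X]).coeff k = 0 := by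
        intro l hl
        rw [coeff_eq_zero_of_natDegree_lt (by rw [hdeg]; exact mem_range.mp hl), mul_zero]
      rw [Finset.sum_eq_zero h2, zero_add] at h1
      have h3 := hmon k
      rw [Monic, leadingCoeff, hdeg] at h3
      rw [h3, mul_one] at h1
      exact h1
    rcases Nat.lt_or_ge l k with h2 | h2
    · refine ih γ ?_ l h2
      rw [sum_range_succ, hk, C_0, zero_mul, add_zero] at h
      exact h
    · have : l = k := by omega
      rw [this]
      exact hk

theorem coeff_sub_pow_char (p : ℕ) [Fact p.Prime] [CharP F p] (e : ℕ) (t : F) (r n : ℕ)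
    (hrn : r < n) (hn : n < p ^ e) : ((X - C t : F[X]) ^ (p ^ e + r)).coeff n = 0 := by
  rw [pow_add]
  have h1 : (X - C t : F[X]) ^ (p ^ e) = X ^ (p ^ e) - C (t ^ (p ^ e)) := by
    rw [sub_pow_char_pow, C_pow]
  rw [h1, sub_mul, coeff_sub, coeff_X_pow_mul', if_neg (by omega), zero_sub, coeff_C_mul]
  rw [coeff_eq_zero_of_natDegree_lt, mul_zero, neg_zero]
  rw [natDegree_pow, natDegree_X_sub_C]
  omega

/-- The coefficients of the auxiliary functions just below the top. -/
theorem coeff_formula (p : ℕ) [Fact p.Prime] [CharP F p] (e : ℕ) (s t : F) (A e₁ e₂ j : ℕ)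
    (hA : e₁ + e₂ + 1 = p ^ e + A) (hj : A + j + 1 ≤ p ^ e) :
    ((X - C s : F[X]) ^ e₁ * (X - C t) ^ e₂).coeff (p ^ e - 1 - j) =
      ∑ l ∈ range (j + 1), ((e₁.choose (A + l) : ℕ) : F) * (-(s - t)) ^ (A + l) * (-t) ^ (j - l) *
        (((p ^ e - 1 - l).choose (p ^ e - 1 - j) : ℕ) : F) := by
  set Q := p ^ e with hQ
  set n := Q - 1 - j with hn
  have h1 : (X - C s : F[X]) ^ e₁ * (X - C t) ^ e₂ = ∑ i ∈ range (e₁ + 1),
      C ((-(s - t)) ^ i * ((e₁.choose i : ℕ) : F)) * (X - C t) ^ (e₁ + e₂ - i) := by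
    have h2 : (X - C s : F[X]) = C (-(s - t)) + (X - C t) := by
      rw [C_neg, C_sub]
      ring
    rw [h2, add_pow, Finset.sum_mul]
    refine Finset.sum_congr rfl fun i hi => ?_
    rw [mem_range] at hi
    have h3 : e₁ + e₂ - i = (e₁ - i) + e₂ := by omega
    rw [h3, pow_add, C_mul, C_pow, map_natCast]
    ring
  rw [h1, finsetSum_coeff]
  simp only [coeff_C_mul]
  set g : ℕ → F := fun i => (-(s - t)) ^ i * ((e₁.choose i : ℕ) : F) *
    ((X - C t : F[X]) ^ (e₁ + e₂ - i)).coeff n with hg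
  have hbig : ∀ i, e₁ + 1 ≤ i → g i = 0 := by
    intro i hi
    simp only [hg]
    rw [Nat.choose_eq_zero_of_lt (by omega)]
    simp
  have hbig2 : ∀ i, A + (j + 1) ≤ i → g i = 0 := by
    intro i hi
    rcases Nat.lt_or_ge e₁ i with h' | h'
    · exact hbig i h'
    simp only [hg]
    rw [coeff_eq_zero_of_natDegree_lt, mul_zero]
    rw [natDegree_pow, natDegree_X_sub_C]
    omega
  have hsum : ∑ i ∈ range (e₁ + 1), g i = ∑ i ∈ range (A + (j + 1)), g i := by
    have e1 : ∑ i ∈ range (e₁ + 1), g i = ∑ i ∈ range (max (e₁ + 1) (A + (j + 1))), g i := by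
      refine Finset.sum_subset (by
        intro x hx
        rw [mem_range] at hx ⊢
        omega) ?_
      intro x _ hx
      rw [mem_range, not_lt] at hx
      exact hbig x hx
    have e2 : ∑ i ∈ range (A + (j + 1)), g i = ∑ i ∈ range (max (e₁ + 1) (A + (j + 1))), g i := by
      refine Finset.sum_subset (by
        intro x hx
        rw [mem_range] at hx ⊢
        omega) ?_
      intro x _ hx
      rw [mem_range, not_lt] at hx
      exact hbig2 x hx
    rw [e1, e2]
  change ∑ i ∈ range (e₁ + 1), g i = _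
  rw [hsum, Finset.sum_range_add]
  have hlow : ∑ i ∈ range A, g i = 0 := by
    refine Finset.sum_eq_zero fun i hi => ?_
    rw [mem_range] at hi
    simp only [hg]
    have h3 : e₁ + e₂ - i = Q + (A - 1 - i) := by omega
    rw [h3, hQ, coeff_sub_pow_char p e t (A - 1 - i) n (by omega) (by omega), mul_zero]
  rw [hlow, zero_add]
  refine Finset.sum_congr rfl fun l hl => ?_
  rw [mem_range] at hl
  simp only [hg]
  rw [coeff_X_sub_C_pow']
  have h3 : e₁ + e₂ - (A + l) = Q - 1 - l := by omega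
  have h4 : Q - 1 - l - n = j - l := by omega
  rw [h3, h4]
  ring

theorem natCast_choose_ne_zero (e k : ℕ) (hk : k ≤ e)
    (h : ∀ i < k, ((e : F) - (i : F)) ≠ 0) : ((e.choose k : ℕ) : F) ≠ 0 := by
  intro h0
  have h1 : ((e.descFactorial k : ℕ) : F) = 0 := by
    rw [Nat.descFactorial_eq_factorial_mul_choose, Nat.cast_mul, h0, mul_zero]
  rw [Nat.descFactorial_eq_prod_range, Nat.cast_prod, Finset.prod_eq_zero_iff] at h1
  obtain ⟨i, hi, h2⟩ := h1
  rw [mem_range] at hi
  rw [Nat.cast_sub (by omega)] at h2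
  exact h i hi h2

theorem natCast_choose_mul (e A l : ℕ) (hk : A + l ≤ e) :
    ((e.choose (A + l) : ℕ) : F) * (((A + l).factorial : ℕ) : F) =
      (∏ i ∈ range A, ((e : F) - (i : F))) * ∏ i ∈ range l, ((e : F) - ((A : F) + (i : F))) := by
  have h1 : e.choose (A + l) * (A + l).factorial = e.descFactorial (A + l) := by
    rw [Nat.descFactorial_eq_factorial_mul_choose, mul_comm]
  rw [← Nat.cast_mul, h1, Nat.descFactorial_eq_prod_range, Nat.cast_prod, Finset.prod_range_add]
  congr 1
  · refine Finset.prod_congr rfl fun i hi => ?_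
    rw [mem_range] at hi
    rw [Nat.cast_sub (by omega)]
  · refine Finset.prod_congr rfl fun i hi => ?_
    rw [mem_range] at hi
    rw [Nat.cast_sub (by omega), Nat.cast_add]

end Pool.Agent.H82.Paley
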