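import Mathlib
import Pool.Agent.H82.PaleyCore

set_option autoImplicit false

namespace Pool.Agent.H82.Paley

open Finset Polynomial

variable {F : Type*} [Field F] {ι : Type*} [Fintype ι]

theorem moment_identity (p : ℕ) [Fact p.Prime] [CharP F p] (e : ℕ)
    {s t c : ι → F} {a b κ m : ℕ} (hκ : 1 ≤ κ) (hκQ : 3 * κ = p ^ e + 1)
    (hc : c ∈ N s t (a + b)) (ha : m ≤ a + 1) (hb : m ≤ b + 1) (S : Finset F)
    (hx : ∀ x ∈ S, ∀ i, (x - s i) ^ (2 * κ - 1) * (x - t i) ^ (κ - 1) = 1)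
    (hcard : p ^ e ≤ m * S.card) (j : ℕ) (hj : a + b + j + 1 ≤ p ^ e) (hj1 : j + 1 < p ^ e) :
    ∑ l ∈ range (j + 1), (((a + (2 * κ - 1)).choose (a + b + l) : ℕ) : F) *
      (((p ^ e - 1 - l).choose (p ^ e - 1 - j) : ℕ) : F) *
      (∑ i, (c i * (s i - t i) ^ (a + b)) * ((s i - t i) ^ l * t i ^ (j - l))) = 0 := by
  have h1 := Psi_const hκ hκQ hc ha hb S hx hcard
  have h2 := congrArg (fun P : F[X] => P.coeff (p ^ e - 1 - j)) h1
  rw [coeff_C, if_neg (by omega)] at h2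
  unfold Psi at h2
  rw [finsetSum_coeff] at h2
  simp only [coeff_C_mul] at h2
  have h3 : ∀ i, ((X - C (s i) : F[X]) ^ (a + (2 * κ - 1)) *
      (X - C (t i)) ^ (b + (κ - 1))).coeff (p ^ e - 1 - j) = _ := fun i =>
    coeff_formula p e (s i) (t i) (a + b) (a + (2 * κ - 1)) (b + (κ - 1)) j (by omega) hj
  simp only [h3, Finset.mul_sum] at h2
  rw [Finset.sum_comm] at h2
  have h4 : ∀ l ∈ range (j + 1), (∑ i, c i * ((((a + (2 * κ - 1)).choose (a + b + l) : ℕ) : F) *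
      (-(s i - t i)) ^ (a + b + l) * (-t i) ^ (j - l) *
        (((p ^ e - 1 - l).choose (p ^ e - 1 - j) : ℕ) : F))) =
      (-1) ^ (a + b + j) * ((((a + (2 * κ - 1)).choose (a + b + l) : ℕ) : F) *
      (((p ^ e - 1 - l).choose (p ^ e - 1 - j) : ℕ) : F) *
      (∑ i, (c i * (s i - t i) ^ (a + b)) * ((s i - t i) ^ l * t i ^ (j - l)))) := by
    intro l hl
    rw [mem_range] at hl
    rw [Finset.mul_sum, Finset.mul_sum]
    refine Finset.sum_congr rfl fun i _ => ?_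
    have e1 : a + b + j = (a + b + l) + (j - l) := by omega
    rw [e1, pow_add (-1 : F), neg_pow (s i - t i), neg_pow (t i), pow_add (s i - t i)]
    ring
  rw [Finset.sum_congr rfl h4, ← Finset.mul_sum] at h2
  have h5 : ((-1 : F) ^ (a + b + j)) ≠ 0 := pow_ne_zero _ (neg_ne_zero.mpr one_ne_zero)
  exact (mul_eq_zero.mp h2).resolve_left h5

theorem intCast_ne_zero_of_lt (p : ℕ) [CharP F p] (n : ℤ) (h0 : n ≠ 0) (h1 : |n| < p) :
    (n : F) ≠ 0 := by
  intro h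
  rw [CharP.intCast_eq_zero_iff F p] at h
  exact h0 (Int.eq_zero_of_abs_lt_dvd h h1)

/-- nonvanishing of the relevant falling factors -/
theorem factor_ne_zero (p : ℕ) [CharP F p] (e : ℕ) (he : e ≠ 0) {a i κ : ℕ}
    (hκ : 1 ≤ κ) (hκQ : 3 * κ = p ^ e + 1) (h1 : 3 * (a : ℤ) - 3 * i - 1 < p)
    (h2 : -(p : ℤ) < 3 * (a : ℤ) - 3 * i - 1) :
    (((a + (2 * κ - 1) : ℕ) : F) - (i : F)) ≠ 0 := by
  intro h
  have hQ : ((p : F)) ^ e = 0 := by
    rw [CharP.cast_eq_zero F p, zero_pow he]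
  have hκF : (3 : F) * (κ : F) = 1 := by
    have := congrArg (fun n : ℕ => (n : F)) hκQ
    push_cast at this
    rw [this, hQ, zero_add]
  have h3 : ((3 * (a : ℤ) - 3 * i - 1 : ℤ) : F) = 0 := by
    have h4 : (3 : F) * ((((a + (2 * κ - 1) : ℕ) : F) - (i : F))) = 0 := by rw [h, mul_zero]
    rw [Nat.cast_add, Nat.cast_sub (by omega)] at h4
    push_cast at h4 ⊢
    linear_combination h4 - 2 * hκF
  refine intCast_ne_zero_of_lt p (3 * (a : ℤ) - 3 * i - 1) (by omega) ?_ h3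
  rw [abs_lt]
  exact ⟨h2, h1⟩

theorem C1 (p : ℕ) [Fact p.Prime] [CharP F p] (e : ℕ) (he : e ≠ 0)
    {s t c : ι → F} {κ m : ℕ} (hm : 2 ≤ m) (hpm : 9 * m < p) (hκQ : 3 * κ = p ^ e + 1)
    (hc : c ∈ N s t (2 * m - 2)) (S : Finset F)
    (hx : ∀ x ∈ S, ∀ i, (x - s i) ^ (2 * κ - 1) * (x - t i) ^ (κ - 1) = 1)
    (hcard : p ^ e ≤ m * S.card) :
    ∑ i, c i * (s i - t i) ^ (2 * m - 2) = 0 := by
  have hpQ : p ≤ p ^ e := Nat.le_self_pow he p
  have hκ : 1 ≤ κ := by omega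
  have hc' : c ∈ N s t ((m - 1) + (m - 1)) := by
    have : (m - 1) + (m - 1) = 2 * m - 2 := by omega
    rw [this]
    exact hc
  have h := moment_identity p e hκ hκQ hc' (m := m) (by omega) (by omega) S hx hcard 0
    (by omega) (by omega)
  simp only [zero_add, range_one, sum_singleton, Nat.sub_zero, add_zero, pow_zero, mul_one,
    Nat.choose_self, Nat.cast_one] at h
  have e1 : (m - 1) + (m - 1) = 2 * m - 2 := by omega
  rw [e1] at h
  refine (mul_eq_zero.mp h).resolve_left ?_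
  refine natCast_choose_ne_zero _ _ (by omega) ?_
  intro i hi
  exact factor_ne_zero p e he hκ hκQ (by omega) (by omega)

end Pool.Agent.H82.Paley
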