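import Mathlib
import Pool.Agent.H82.PaleyBound

set_option autoImplicit false

namespace Pool.Agent.H82.Paley

open Finset Polynomial

variable {F : Type*} [Field F] {ι : Type*} [Fintype ι]

/-- The two index binomials which appear are invertible. -/
theorem B_ne_zero (p : ℕ) [Fact p.Prime] [CharP F p] (e : ℕ) (he : e ≠ 0) {j l : ℕ}
    (hl : l ≤ j) (hj : j < p) (hjQ : j + 1 ≤ p ^ e) :
    (((p ^ e - 1 - l).choose (p ^ e - 1 - j) : ℕ) : F) ≠ 0 := by
  have h1 : (p ^ e - 1 - l).choose (p ^ e - 1 - j) = (p ^ e - 1 - l).choose (j - l) :=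
    Nat.choose_symm_of_eq_add (by omega)
  rw [h1]
  refine natCast_choose_ne_zero _ _ (by omega) ?_
  intro i hi
  have h2 : (((p ^ e - 1 - l : ℕ) : F) - (i : F)) = ((-(1 + (l : ℤ) + i) : ℤ) : F) := by
    rw [Nat.cast_sub (by omega), Nat.cast_sub (by omega)]
    have hQ : ((p : F)) ^ e = 0 := by
      rw [CharP.cast_eq_zero F p, zero_pow he]
    push_cast
    rw [hQ]
    ring
  rw [h2]
  refine intCast_ne_zero_of_lt p _ (by omega) ?_
  rw [abs_lt]
  constructor <;> omega

theorem step (p : ℕ) [Fact p.Prime] [CharP F p] (e : ℕ) (he : e ≠ 0)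
    {s t c : ι → F} {κ m : ℕ} (hm : 2 ≤ m) (hpm : 9 * m < p) (hκQ : 3 * κ = p ^ e + 1)
    (hc : c ∈ N s t (4 * m - 5)) (S : Finset F)
    (hx : ∀ x ∈ S, ∀ i, (x - s i) ^ (2 * κ - 1) * (x - t i) ^ (κ - 1) = 1)
    (hcard : p ^ e ≤ m * S.card) (j : ℕ) (hj : j ≤ 4 * m - 5)
    (hcj : (fun i => c i * (s i - t i) ^ (4 * m - 5)) ∈ N s t j) :
    (fun i => c i * (s i - t i) ^ (4 * m - 5)) ∈ N s t (j + 1) := by
  have hpQ : p ≤ p ^ e := Nat.le_self_pow he p
  have hκ : 1 ≤ κ := by omega
  set A := 4 * m - 5 with hA
  set k := 2 * m - 2 with hk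
  set Q := p ^ e with hQdef
  set y : ℕ → F := fun l => ∑ i, (c i * (s i - t i) ^ A) * ((s i - t i) ^ l * t i ^ (j - l)) with hy
  -- the high ones vanish
  have hyhigh : ∀ l, k ≤ l → l ≤ j → y l = 0 := by
    intro l hkl hlj
    have h1 : (fun i => c i * (s i - t i) ^ A) ∈ N s t ((k + (l - k)) + (j - l)) := by
      have : (k + (l - k)) + (j - l) = j := by omega
      rw [this]
      exact hcj
    have h2 := mul_t_pow_mem (j - l) h1
    have h3 := mul_w_pow_mem (l - k) h2
    have h4 := C1 p e he hm hpm hκQ h3 S hx hcard
    rw [← h4]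
    simp only [hy]
    refine Finset.sum_congr rfl fun i _ => ?_
    have : (s i - t i) ^ l = (s i - t i) ^ (l - k) * (s i - t i) ^ k := by
      rw [← pow_add]
      congr 1
      omega
    rw [this]
    ring
  -- the low ones vanish too
  have hylow : ∀ l, l < k → l ≤ j → y l = 0 := by
    set γ : ℕ → F := fun l => if l ≤ j then
      (((Q - 1 - l).choose (Q - 1 - j) : ℕ) : F) * y l * ((((A + l).factorial : ℕ) : F))⁻¹ else 0
      with hγ
    have hq : (∑ l ∈ range k, C (γ l) * ∏ i ∈ range l, (X - C ((A : F) + (i : F))) : F[X]) = 0 := by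
      set f : Fin k → F := fun i₀ => (((m - 1 + i₀.val + (2 * κ - 1) : ℕ)) : F) with hf
      refine eq_zero_of_natDegree_lt_card_of_eval_eq_zero (f := f) _ ?_ ?_ ?_
      · intro i₁ i₂ h12
        simp only [hf] at h12
        rw [CharP.natCast_eq_natCast F p] at h12
        have h5 : i₁.val ≡ i₂.val [MOD p] := by
          have h6 := Nat.ModEq.add_right_cancel' _ h12
          exact Nat.ModEq.add_left_cancel' _ h6
        have h7 := Nat.ModEq.eq_of_lt_of_lt h5 (by omega) (by omega)
        exact Fin.ext h7
      · intro i₀
        have hi₀ := i₀.isLt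
        set a := m - 1 + i₀.val with ha
        set b := A - a with hb
        have hab : a + b = A := by omega
        have hc' : c ∈ N s t (a + b) := by rw [hab]; exact hc
        have h := moment_identity p e hκ hκQ hc' (m := m) (by omega) (by omega) S hx hcard j
          (by omega) (by omega)
        rw [hab, ← hQdef] at h
        set D : F := ∏ i ∈ range A, (((a + (2 * κ - 1) : ℕ) : F) - (i : F)) with hD
        have hD0 : D ≠ 0 := by
          rw [hD, Finset.prod_ne_zero_iff]
          intro i hi
          rw [mem_range] at hi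
          exact factor_ne_zero p e he hκ hκQ (by omega) (by omega)
        have hterm : ∀ l ∈ range k, D * (γ l * ∏ i ∈ range l,
            (((a + (2 * κ - 1) : ℕ) : F) - ((A : F) + (i : F)))) =
            if l ≤ j then (((a + (2 * κ - 1)).choose (A + l) : ℕ) : F) *
              (((Q - 1 - l).choose (Q - 1 - j) : ℕ) : F) * y l else 0 := by
          intro l hl
          rw [mem_range] at hl
          by_cases hlj : l ≤ j
          · rw [if_pos hlj]
            simp only [hγ, if_pos hlj]
            have h6 := natCast_choose_mul (F := F) (a + (2 * κ - 1)) A l (by omega)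
            have h7 : ((((A + l).factorial : ℕ) : F)) ≠ 0 := by
              intro h0
              rw [CharP.cast_eq_zero_iff F p, (Fact.out : p.Prime).dvd_factorial] at h0
              omega
            rw [← hD] at h6
            field_simp
            linear_combination (-(((Q - 1 - l).choose (Q - 1 - j) : ℕ) : F) * y l) * h6
          · rw [if_neg hlj]
            simp only [hγ, if_neg hlj]
            ring
        have hsum : D * eval (((a + (2 * κ - 1) : ℕ)) : F)
            (∑ l ∈ range k, C (γ l) * ∏ i ∈ range l, (X - C ((A : F) + (i : F)))) = 0 := by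
          rw [eval_finsetSum, Finset.mul_sum]
          simp only [eval_mul, eval_C, eval_prod, eval_sub, eval_X]
          rw [Finset.sum_congr rfl hterm]
          rw [← Finset.sum_filter]
          have h9 : ∀ l ∈ range (j + 1), l ∉ (range k).filter (fun l => l ≤ j) →
              (((a + (2 * κ - 1)).choose (A + l) : ℕ) : F) *
              (((Q - 1 - l).choose (Q - 1 - j) : ℕ) : F) * y l = 0 := by
            intro l hl hl'
            rw [mem_range] at hl
            rw [mem_filter, mem_range] at hl'
            rw [hyhigh l (by omega) (by omega), mul_zero]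
          refine Eq.trans (Finset.sum_subset ?_ h9) h
          intro l hl
          rw [mem_filter, mem_range] at hl
          rw [mem_range]
          omega
        exact (mul_eq_zero.mp hsum).resolve_left hD0
      · rw [Fintype.card_fin]
        refine lt_of_le_of_lt (natDegree_sum_le_of_forall_le (n := k - 1) _ _ ?_) (by omega)
        intro l hl
        rw [mem_range] at hl
        refine le_trans (natDegree_C_mul_le _ _) ?_
        rw [natDegree_prod_of_monic _ _ (fun i _ => monic_X_sub_C _)]
        simp only [natDegree_X_sub_C, sum_const, card_range, smul_eq_mul, mul_one]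
        omega
    intro l hl hlj
    have h1 := newton_indep (fun i => (A : F) + (i : F)) k γ hq l hl
    simp only [hγ, if_pos hlj] at h1
    have h2 := B_ne_zero (F := F) p e he hlj (by omega) (by omega)
    have h7 : ((((A + l).factorial : ℕ) : F)) ≠ 0 := by
      intro h0
      rw [CharP.cast_eq_zero_iff F p, (Fact.out : p.Prime).dvd_factorial] at h0
      omega
    rcases mul_eq_zero.mp h1 with h3 | h3
    · exact (mul_eq_zero.mp h3).resolve_left h2
    · exact absurd h3 (inv_ne_zero h7)
  have hyall : ∀ l, l ≤ j → y l = 0 := by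
    intro l hlj
    rcases Nat.lt_or_ge l k with h | h
    · exact hylow l h hlj
    · exact hyhigh l h hlj
  intro u v huv
  rcases Nat.lt_or_ge (u + v) j with h | h
  · exact hcj u v h
  · have huvj : u + v = j := by omega
    have h1 : ∀ i, c i * (s i - t i) ^ A * (s i ^ u * t i ^ v) =
        ∑ l ∈ range (u + 1), ((u.choose l : ℕ) : F) *
          ((c i * (s i - t i) ^ A) * ((s i - t i) ^ l * t i ^ (j - l))) := by
      intro i
      have h2 : s i = (s i - t i) + t i := by ring
      have h3 : s i ^ u = ((s i - t i) + t i) ^ u := by rw [← h2]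
      rw [h3, add_pow, Finset.sum_mul, Finset.mul_sum]
      refine Finset.sum_congr rfl fun l hl => ?_
      rw [mem_range] at hl
      have h4 : j - l = (u - l) + v := by omega
      rw [h4, pow_add]
      ring
    simp only [h1]
    rw [Finset.sum_comm]
    refine Finset.sum_eq_zero fun l hl => ?_
    rw [mem_range] at hl
    rw [← Finset.mul_sum]
    have := hyall l (by omega)
    simp only [hy] at this
    rw [this, mul_zero]

end Pool.Agent.H82.Paley
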