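import Mathlib
import Pool.Agent.H82.PaleyFinal

set_option autoImplicit false

namespace Pool.Agent.H82.Paley

open Finset Polynomial

variable {F : Type*} [Field F] {ι : Type*} [Fintype ι]

theorem step_all (p : ℕ) [Fact p.Prime] [CharP F p] (e : ℕ) (he : e ≠ 0)
    {s t c : ι → F} {κ m : ℕ} (hm : 2 ≤ m) (hpm : 9 * m < p) (hκQ : 3 * κ = p ^ e + 1)
    (hc : c ∈ N s t (4 * m - 5)) (S : Finset F)
    (hx : ∀ x ∈ S, ∀ i, (x - s i) ^ (2 * κ - 1) * (x - t i) ^ (κ - 1) = 1)
    (hcard : p ^ e ≤ m * S.card) (j : ℕ) (hj : j ≤ 4 * m - 5 + 1) :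
    (fun i => c i * (s i - t i) ^ (4 * m - 5)) ∈ N s t j := by
  induction j with
  | zero => intro u v h; omega
  | succ j ih => exact step p e he hm hpm hκQ hc S hx hcard j (by omega) (ih (by omega))

/-- If a functional is annihilated by all moments it vanishes. -/
theorem eq_zero_of_all {s t c : ι → F} (ht : Function.Injective t)
    (h : ∀ j, c ∈ N s t j) : c = 0 := by
  classical
  have hmom : ∀ v : ℕ, ∑ i, c i * t i ^ v = 0 := by
    intro v
    have := h (v + 1) 0 v (by omega)
    simpa using this
  have hpoly : ∀ P : F[X], ∑ i, c i * P.eval (t i) = 0 := by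
    intro P
    have h1 : ∀ i, c i * P.eval (t i) = ∑ v ∈ range (P.natDegree + 1), P.coeff v * (c i * t i ^ v) := by
      intro i
      rw [eval_eq_sum_range, Finset.mul_sum]
      refine Finset.sum_congr rfl fun v _ => ?_
      ring
    simp only [h1]
    rw [Finset.sum_comm]
    refine Finset.sum_eq_zero fun v _ => ?_
    rw [← Finset.mul_sum, hmom v, mul_zero]
  funext i₀
  have h2 := hpoly (∏ i ∈ univ.erase i₀, (X - C (t i)))
  rw [Finset.sum_eq_single i₀] at h2
  · rcases mul_eq_zero.mp h2 with h3 | h3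
    · exact h3
    · exfalso
      rw [eval_prod, Finset.prod_eq_zero_iff] at h3
      obtain ⟨i, hi, h4⟩ := h3
      rw [eval_sub, eval_X, eval_C, sub_eq_zero] at h4
      exact (Finset.ne_of_mem_erase hi) (ht h4).symm
  · intro i _ hi
    rw [eval_prod, Finset.prod_eq_zero (i := i) (by simp [hi]) (by simp), mul_zero]
  · intro h3
    exact absurd (mem_univ i₀) h3

theorem abstract_bound (p : ℕ) [Fact p.Prime] [CharP F p] (e : ℕ) (he : e ≠ 0)
    {s t : ι → F} (ht : Function.Injective t) (hst : ∀ i, s i ≠ t i)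
    {κ m : ℕ} (hm : 2 ≤ m) (hpm : 9 * m < p) (hκQ : 3 * κ = p ^ e + 1) (S : Finset F)
    (hx : ∀ x ∈ S, ∀ i, (x - s i) ^ (2 * κ - 1) * (x - t i) ^ (κ - 1) = 1)
    (hcard : p ^ e ≤ m * S.card) :
    Fintype.card ι ≤ (4 * m - 5) ^ 2 := by
  classical
  by_contra hlt
  push Not at hlt
  set A := 4 * m - 5 with hA
  -- the weight multiplication as an endomorphism of `N A`
  have hmaps : ∀ c ∈ N s t A, (fun i => c i * (s i - t i) ^ A) ∈ N s t (A + 1) := fun c hc =>
    step_all p e he hm hpm hκQ hc S hx hcard (A + 1) le_rfl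
  let T : N s t A →ₗ[F] N s t A :=
    { toFun := fun c => ⟨fun i => c.1 i * (s i - t i) ^ A, N_anti (Nat.le_succ A) (hmaps c.1 c.2)⟩
      map_add' := by
        intro c d
        ext i
        simp only [Submodule.coe_add, Pi.add_apply]
        ring
      map_smul' := by
        intro r c
        ext i
        simp only [Submodule.coe_smul, Pi.smul_apply, smul_eq_mul, RingHom.id_apply]
        ring }
  have hTinj : Function.Injective T := by
    intro c d hcd
    ext i
    have h1 := congrArg (fun q : N s t A => q.1 i) hcd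
    simp only [T, LinearMap.coe_mk, AddHom.coe_mk] at h1
    exact mul_right_cancel₀ (pow_ne_zero _ (sub_ne_zero.mpr (hst i))) h1
  have hTsurj : Function.Surjective T := (LinearMap.injective_iff_surjective).mp hTinj
  have hstab : ∀ c ∈ N s t A, c ∈ N s t (A + 1) := by
    intro c hc
    obtain ⟨d, hd⟩ := hTsurj ⟨c, hc⟩
    have h1 : c = fun i => d.1 i * (s i - t i) ^ A := by
      have := congrArg Subtype.val hd
      exact this.symm
    rw [h1]
    exact hmaps d.1 d.2
  have hall : ∀ j, ∀ c ∈ N s t A, c ∈ N s t (A + j) := by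
    intro j
    induction j with
    | zero => intro c hc; exact hc
    | succ j ih =>
      intro c hc u v huv
      rcases Nat.eq_zero_or_pos u with hu | hu
      · rcases Nat.eq_zero_or_pos v with hv | hv
        · exact hstab c hc u v (by omega)
        · obtain ⟨v', rfl⟩ : ∃ v', v = v' + 1 := ⟨v - 1, by omega⟩
          have h1 := ih _ (mul_t_mem (hstab c hc)) u v' (by omega)
          rw [← h1]
          refine Finset.sum_congr rfl fun i _ => ?_
          ring
      · obtain ⟨u', rfl⟩ : ∃ u', u = u' + 1 := ⟨u - 1, by omega⟩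
        have h1 := ih _ (mul_s_mem (hstab c hc)) u' v (by omega)
        rw [← h1]
        refine Finset.sum_congr rfl fun i _ => ?_
        ring
  have hzero : ∀ c ∈ N s t A, c = 0 := by
    intro c hc
    exact eq_zero_of_all ht (fun j => N_anti (by omega) (hall j c hc))
  -- but the kernel is nontrivial
  let Φ : (ι → F) →ₗ[F] (Fin A × Fin A → F) :=
    { toFun := fun c uv => ∑ i, c i * (s i ^ uv.1.val * t i ^ uv.2.val)
      map_add' := by
        intro c d
        ext uv
        simp only [Pi.add_apply, add_mul, Finset.sum_add_distrib]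
      map_smul' := by
        intro r c
        ext uv
        simp only [Pi.smul_apply, smul_eq_mul, RingHom.id_apply, mul_assoc, Finset.mul_sum] }
  have hker : LinearMap.ker Φ ≠ ⊥ := by
    refine LinearMap.ker_ne_bot_of_finrank_lt ?_
    rw [Module.finrank_fintype_fun_eq_card, Module.finrank_fintype_fun_eq_card, Fintype.card_prod,
      Fintype.card_fin]
    rw [pow_two] at hlt
    exact hlt
  obtain ⟨c, hc, hc0⟩ := (Submodule.ne_bot_iff _).mp hker
  refine hc0 (hzero c ?_)
  intro u v huv
  have h1 := congrFun (LinearMap.mem_ker.mp hc) (⟨u, by omega⟩, ⟨v, by omega⟩)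
  exact h1

end Pool.Agent.H82.Paley
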