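import Mathlib
import Pool.Agent.H82.PaleyDim

set_option autoImplicit false
set_option linter.unusedSectionVars false

namespace Pool.Agent.H82.Paley

open Finset Polynomial

variable {F : Type*} [Field F] [Fintype F] [DecidableEq F]

/-- Being a difference which is a cube. -/
def Cub (x y : F) : Prop := ∃ z : F, z ^ 3 = x - y

theorem Cub.symm {x y : F} (h : Cub x y) : Cub y x := by
  obtain ⟨z, hz⟩ := h
  exact ⟨-z, by rw [neg_pow, hz]; ring⟩

theorem pow_sq_eq {p : ℕ} (hF : Fintype.card F = (p ^ 3) ^ 2) (x : F) :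
    (x ^ (p ^ 3)) ^ (p ^ 3) = x := by
  rw [← pow_mul, ← pow_two, ← hF, FiniteField.pow_card]

theorem field_bound (p : ℕ) [Fact p.Prime] [CharP F p] (hF : Fintype.card F = (p ^ 3) ^ 2)
    (hp3 : p % 3 = 2) {m : ℕ} (hm : 2 ≤ m) (hpm : 9 * m < p) (S Z : Finset F)
    (hS : ∀ x ∈ S, x ^ (p ^ 3) = x) (hZ : ∀ z ∈ Z, z ^ (p ^ 3) ≠ z)
    (hSZ : ∀ x ∈ S, ∀ z ∈ Z, Cub x z) (hcard : p ^ 3 ≤ m * S.card) :
    Z.card ≤ (4 * m - 5) ^ 2 := by
  have hmod : (p ^ 3) % 3 = 2 := by
    rw [Nat.pow_mod, hp3]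
  obtain ⟨κ, hκ⟩ : ∃ κ, 3 * κ = p ^ 3 + 1 := ⟨(p ^ 3 + 1) / 3, by omega⟩
  have hQpos : 0 < p ^ 3 := pow_pos (Fact.out : p.Prime).pos 3
  have hb := abstract_bound (F := F) (ι := Z) p 3 (by norm_num)
    (s := fun z => (z : F)) (t := fun z => (z : F) ^ (p ^ 3)) (κ := κ) (m := m) ?_ ?_ hm hpm hκ S ?_ hcard
  · simpa using hb
  · intro z z' hzz
    simp only at hzz
    have := congrArg (fun y : F => y ^ (p ^ 3)) hzz
    simp only [pow_sq_eq hF] at this
    exact Subtype.ext this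
  · intro z
    exact (hZ z z.2).symm
  · intro x hx z
    obtain ⟨y, hy⟩ := hSZ x hx z z.2
    have hne : x - (z : F) ≠ 0 := by
      intro h
      rw [sub_eq_zero] at h
      apply hZ z z.2
      rw [← h]
      exact hS x hx
    have hy0 : y ≠ 0 := by
      intro h
      rw [h] at hy
      apply hne
      rw [← hy]
      norm_num
    have h1 : x - (z : F) ^ (p ^ 3) = (x - z) ^ (p ^ 3) := by
      rw [sub_pow_char_pow, hS x hx]
    rw [h1, ← pow_mul, ← pow_add, ← hy, ← pow_mul]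
    have h2 : 3 * (2 * κ - 1 + p ^ 3 * (κ - 1)) = (p ^ 3) ^ 2 - 1 := by
      obtain ⟨k, rfl⟩ : ∃ k, κ = k + 1 := ⟨κ - 1, by omega⟩
      have e1 : p ^ 3 = 3 * k + 2 := by omega
      rw [e1]
      have e2 : 2 * (k + 1) - 1 = 2 * k + 1 := by omega
      have e3 : k + 1 - 1 = k := by omega
      rw [e2, e3]
      have e4 : (3 * k + 2) ^ 2 = 3 * (2 * k + 1 + (3 * k + 2) * k) + 1 := by ring
      rw [e4]
      omega
    rw [h2, ← hF]
    exact FiniteField.pow_card_sub_one_eq_one y hy0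

/-- elements of the fixed field are cubes -/
theorem cube_of_fixed (p : ℕ) [Fact p.Prime] (hp3 : p % 3 = 2) {u : F} (hu : u ^ (p ^ 3) = u) :
    ∃ z : F, z ^ 3 = u := by
  have hmod : (p ^ 3) % 3 = 2 := by
    rw [Nat.pow_mod, hp3]
  refine ⟨u ^ ((2 * p ^ 3 - 1) / 3), ?_⟩
  rw [← pow_mul]
  have h1 : (2 * p ^ 3 - 1) / 3 * 3 = 2 * p ^ 3 - 1 := by omega
  rw [h1]
  by_cases h0 : u = 0
  · rw [h0, zero_pow (by omega)]
  · have h2 : u ^ (2 * p ^ 3 - 1) * u = u * u := by
      rw [← pow_succ]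
      have h3 : 2 * p ^ 3 - 1 + 1 = p ^ 3 + p ^ 3 := by omega
      rw [h3, pow_add, hu]
    exact mul_right_cancel₀ h0 h2

/-- number of solutions of `u ^ Q = a * u + v` -/
theorem card_roots_le (Q : ℕ) (hQ : 2 ≤ Q) (a v : F) :
    (univ.filter (fun u : F => u ^ Q - a * u - v = 0)).card ≤ Q := by
  classical
  set P : F[X] := X ^ Q - C a * X - C v with hP
  have hdeg : P.natDegree = Q := by
    rw [hP]
    have h1 : (C a * X + C v : F[X]).natDegree < Q := by
      refine lt_of_le_of_lt (natDegree_linear_le) (by omega)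
    have h2 : (X ^ Q - C a * X - C v : F[X]) = X ^ Q - (C a * X + C v) := by ring
    rw [h2, natDegree_sub_eq_left_of_natDegree_lt]
    · rw [natDegree_X_pow]
    · rw [natDegree_X_pow]
      exact h1
  have hP0 : P ≠ 0 := by
    intro h
    rw [h, natDegree_zero] at hdeg
    omega
  have hsub : univ.filter (fun u : F => u ^ Q - a * u - v = 0) ⊆ P.roots.toFinset := by
    intro u hu
    rw [mem_filter] at hu
    rw [Multiset.mem_toFinset, mem_roots hP0, IsRoot.def, hP]
    simp only [eval_sub, eval_pow, eval_X, eval_mul, eval_C]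
    exact hu.2
  calc (univ.filter (fun u : F => u ^ Q - a * u - v = 0)).card ≤ P.roots.toFinset.card :=
        card_le_card hsub
    _ ≤ Multiset.card P.roots := Multiset.toFinset_card_le _
    _ ≤ P.natDegree := card_roots' P
    _ = Q := hdeg

/-- the fixed field, as a finset -/
def Kset (F : Type*) [Field F] [Fintype F] [DecidableEq F] (p : ℕ) : Finset F :=
  univ.filter (fun u : F => u ^ (p ^ 3) = u)

/-- a coset of the fixed field, as a finset -/
def Lset (p : ℕ) (v : F) : Finset F :=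
  univ.filter (fun u : F => u ^ (p ^ 3) - u = v)

theorem Q_ge (p : ℕ) [Fact p.Prime] : 2 ≤ p ^ 3 := by
  have h2 := (Fact.out : p.Prime).two_le
  calc 2 ≤ p := h2
    _ ≤ p ^ 3 := Nat.le_self_pow (by norm_num) p

theorem card_Kset_le (p : ℕ) [Fact p.Prime] : (Kset F p).card ≤ p ^ 3 := by
  have := card_roots_le (F := F) (p ^ 3) (Q_ge p) 1 0
  unfold Kset
  refine le_trans (card_le_card ?_) this
  intro u hu
  rw [mem_filter] at hu ⊢
  refine ⟨hu.1, ?_⟩
  rw [hu.2]
  ring

theorem card_Lset_le (p : ℕ) [Fact p.Prime] (v : F) : (Lset p v).card ≤ p ^ 3 := by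
  have := card_roots_le (F := F) (p ^ 3) (Q_ge p) 1 v
  unfold Lset
  refine le_trans (card_le_card ?_) this
  intro u hu
  rw [mem_filter] at hu ⊢
  refine ⟨hu.1, ?_⟩
  rw [← hu.2]
  ring

/-- the nonzero values of the map `u ↦ u^Q - u` -/
def Vset (F : Type*) [Field F] [Fintype F] [DecidableEq F] (p : ℕ) : Finset F :=
  univ.filter (fun v : F => v ^ (p ^ 3) = -v)

theorem card_Vset_le (p : ℕ) [Fact p.Prime] : (Vset F p).card ≤ p ^ 3 := by
  have := card_roots_le (F := F) (p ^ 3) (Q_ge p) (-1) 0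
  unfold Vset
  refine le_trans (card_le_card ?_) this
  intro u hu
  rw [mem_filter] at hu ⊢
  refine ⟨hu.1, ?_⟩
  rw [hu.2]
  ring

theorem g_mem_Vset (p : ℕ) [Fact p.Prime] [CharP F p] (hF : Fintype.card F = (p ^ 3) ^ 2) (u : F) :
    u ^ (p ^ 3) - u ∈ Vset F p := by
  unfold Vset
  rw [mem_filter]
  refine ⟨mem_univ _, ?_⟩
  rw [sub_pow_char_pow, pow_sq_eq hF]
  ring

theorem card_Kset (p : ℕ) [Fact p.Prime] [CharP F p] (hF : Fintype.card F = (p ^ 3) ^ 2) :
    p ^ 3 ≤ (Kset F p).card := by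
  have h1 : (univ : Finset F).card ≤ (Kset F p).card *
      ((univ : Finset F).image (fun u : F => u ^ (p ^ 3) - u)).card := by
    refine card_le_mul_card_image _ _ ?_
    intro v hv
    rw [mem_image] at hv
    obtain ⟨u₀, _, hu₀⟩ := hv
    refine card_le_card_of_injOn (fun u => u - u₀) ?_ ?_
    · intro u hu
      rw [mem_coe, mem_filter] at hu
      rw [mem_coe]
      unfold Kset
      rw [mem_filter]
      refine ⟨mem_univ _, ?_⟩
      rw [sub_pow_char_pow]
      have h2 := hu.2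
      rw [← hu₀] at h2
      linear_combination h2
    · intro u _ u' _ h
      simpa using h
  have h2 : ((univ : Finset F).image (fun u : F => u ^ (p ^ 3) - u)).card ≤ p ^ 3 := by
    refine le_trans (card_le_card ?_) (card_Vset_le (F := F) p)
    intro v hv
    rw [mem_image] at hv
    obtain ⟨u, _, rfl⟩ := hv
    exact g_mem_Vset p hF u
  rw [card_univ, hF] at h1
  have h3 : (p ^ 3) ^ 2 ≤ (Kset F p).card * p ^ 3 := le_trans h1 (Nat.mul_le_mul_left _ h2)
  rw [pow_two] at h3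
  exact Nat.le_of_mul_le_mul_right h3 (by have := Q_ge p; omega)

end Pool.Agent.H82.Paley
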