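import Mathlib
import Pool.Agent.H82.PaleyField

set_option autoImplicit false
set_option linter.unusedSectionVars false

namespace Pool.Agent.H82.Paley

open Finset Polynomial Classical

variable {F : Type*} [Field F] [Fintype F]

/-- nonfixed cubes whose image under `u ↦ u^Q - u` is `v` -/
noncomputable def Dset (F : Type*) [Field F] [Fintype F] (p : ℕ) (v : F) : Finset F :=
  univ.filter (fun u : F => u ^ (p ^ 3) - u = v ∧ ∃ z : F, z ^ 3 = u)

theorem card_cubes (p : ℕ) [Fact p.Prime] (hF : Fintype.card F = (p ^ 3) ^ 2) :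
    (p ^ 3) ^ 2 - 1 ≤ 3 * (univ.filter (fun u : F => u ≠ 0 ∧ ∃ z : F, z ^ 3 = u)).card := by
  have h1 : (univ.erase (0 : F)).card ≤ 3 * ((univ.erase (0 : F)).image (fun z : F => z ^ 3)).card := by
    refine card_le_mul_card_image _ _ ?_
    intro v hv
    have := card_roots_le (F := F) 3 (by norm_num) 0 v
    refine le_trans (card_le_card ?_) this
    intro u hu
    rw [mem_filter] at hu ⊢
    refine ⟨mem_univ _, ?_⟩
    rw [← hu.2]
    ring
  have h2 : (univ.erase (0 : F)).image (fun z : F => z ^ 3) ⊆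
      univ.filter (fun u : F => u ≠ 0 ∧ ∃ z : F, z ^ 3 = u) := by
    intro v hv
    rw [mem_image] at hv
    obtain ⟨z, hz, rfl⟩ := hv
    rw [mem_erase] at hz
    rw [mem_filter]
    exact ⟨mem_univ _, pow_ne_zero _ hz.1, z, rfl⟩
  have h3 := card_le_card h2
  rw [card_erase_of_mem (mem_univ _), card_univ, hF] at h1
  omega

theorem exists_Dset (p : ℕ) [Fact p.Prime] [CharP F p] (hF : Fintype.card F = (p ^ 3) ^ 2) :
    ∃ v : F, v ≠ 0 ∧ p ^ 3 - 2 ≤ 3 * (Dset F p v).card := by
  by_contra hcon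
  push Not at hcon
  have hQ := Q_ge p
  set Q := p ^ 3 with hQdef
  set Cs := univ.filter (fun u : F => u ≠ 0 ∧ ∃ z : F, z ^ 3 = u) with hCs
  have hC := card_cubes (F := F) p hF
  rw [← hCs, ← hQdef] at hC
  have hsplit : Cs ⊆ (Kset F p).erase 0 ∪ (Cs.filter (fun u => u ^ Q - u ≠ 0)) := by
    intro u hu
    rw [mem_union]
    by_cases h : u ^ Q - u = 0
    · left
      rw [mem_erase]
      rw [hCs, mem_filter] at hu
      refine ⟨hu.2.1, ?_⟩
      unfold Kset
      rw [mem_filter]
      exact ⟨mem_univ _, by rw [← hQdef]; exact sub_eq_zero.mp h⟩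
    · right
      rw [mem_filter]
      exact ⟨hu, h⟩
  have h0K : (0 : F) ∈ Kset F p := by
    unfold Kset
    rw [mem_filter]
    exact ⟨mem_univ _, zero_pow (by omega)⟩
  have hK := card_Kset_le (F := F) p
  have h1 : Cs.card ≤ (Q - 1) + (Cs.filter (fun u => u ^ Q - u ≠ 0)).card := by
    refine le_trans (card_le_card hsplit) (le_trans (card_union_le _ _) ?_)
    rw [card_erase_of_mem h0K]
    omega
  -- fibre the second set
  have hmaps : ∀ u ∈ Cs.filter (fun u => u ^ Q - u ≠ 0), u ^ Q - u ∈ (Vset F p).erase 0 := by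
    intro u hu
    rw [mem_filter] at hu
    rw [mem_erase]
    exact ⟨hu.2, g_mem_Vset p hF u⟩
  have hfib := Finset.card_eq_sum_card_fiberwise hmaps
  have h0V : (0 : F) ∈ Vset F p := by
    unfold Vset
    rw [mem_filter]
    refine ⟨mem_univ _, ?_⟩
    rw [zero_pow (by omega), neg_zero]
  have hV := card_Vset_le (F := F) p
  have hVe : ((Vset F p).erase 0).card ≤ Q - 1 := by
    rw [card_erase_of_mem h0V]
    omega
  have hbound : 3 * ∑ v ∈ (Vset F p).erase 0,
      ((Cs.filter (fun u => u ^ Q - u ≠ 0)).filter (fun u => u ^ Q - u = v)).card ≤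
      ((Vset F p).erase 0).card * (Q - 3) := by
    rw [Finset.mul_sum, ← smul_eq_mul, ← Finset.sum_const]
    refine Finset.sum_le_sum fun v hv => ?_
    rw [mem_erase] at hv
    have h2 := hcon v hv.1
    have h3 : ((Cs.filter (fun u => u ^ Q - u ≠ 0)).filter (fun u => u ^ Q - u = v)).card ≤
        (Dset F p v).card := by
      refine card_le_card ?_
      intro u hu
      rw [mem_filter, mem_filter, hCs, mem_filter] at hu
      unfold Dset
      rw [mem_filter]
      exact ⟨mem_univ _, hu.2, hu.1.1.2.2⟩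
    omega
  rw [← hfib] at hbound
  have h4 : 3 * (Cs.filter (fun u => u ^ Q - u ≠ 0)).card ≤ (Q - 1) * (Q - 3) :=
    le_trans hbound (Nat.mul_le_mul_right _ hVe)
  have h5 : Q ^ 2 - 1 ≤ 3 * (Q - 1) + (Q - 1) * (Q - 3) := by omega
  rcases Nat.lt_or_ge Q 3 with h6 | h6
  · have h7 : Q = 2 := by omega
    -- Q is a prime cube, so it cannot be 2
    have h8 : 2 ^ 3 ≤ p ^ 3 := Nat.pow_le_pow_left (Fact.out : p.Prime).two_le 3
    omega
  · obtain ⟨q, hq⟩ : ∃ q, Q = q + 3 := ⟨Q - 3, by omega⟩
    rw [hq] at h5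
    have e1 : q + 3 - 1 = q + 2 := by omega
    have e2 : q + 3 - 3 = q := by omega
    rw [e1, e2] at h5
    have e3 : (q + 3) ^ 2 = q ^ 2 + 6 * q + 9 := by ring
    have e4 : (q + 2) * q = q ^ 2 + 2 * q := by ring
    rw [e3, e4] at h5
    omega

/-- common neighbours in the fixed field -/
noncomputable def NK (p : ℕ) (T : Finset F) : Finset F :=
  (Kset F p).filter (fun x => ∀ t ∈ T, Cub x t)

theorem mem_NK {p : ℕ} {T : Finset F} {x : F} :
    x ∈ NK p T ↔ x ^ (p ^ 3) = x ∧ ∀ t ∈ T, Cub x t := by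
  unfold NK Kset
  simp

theorem card_nbrs (p : ℕ) [Fact p.Prime] [CharP F p] (v : F) {x : F}
    (hx : x ^ (p ^ 3) = x) :
    ((Lset p v).filter (fun t => Cub x t)).card = (Dset F p v).card := by
  refine Finset.card_bij (fun t _ => t - x) ?_ ?_ ?_
  · intro t ht
    rw [mem_filter] at ht
    unfold Lset at ht
    rw [mem_filter] at ht
    unfold Dset
    rw [mem_filter]
    refine ⟨mem_univ _, ?_, ht.2.symm⟩
    rw [sub_pow_char_pow, hx, ← ht.1.2]
    ring
  · intro t _ t' _ h
    simpa using h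
  · intro u hu
    unfold Dset at hu
    rw [mem_filter] at hu
    refine ⟨u + x, ?_, by ring⟩
    rw [mem_filter]
    unfold Lset
    rw [mem_filter]
    refine ⟨⟨mem_univ _, ?_⟩, ?_⟩
    · rw [add_pow_char_pow, hx, ← hu.2.1]
      ring
    · obtain ⟨z, hz⟩ := hu.2.2
      refine Cub.symm ⟨z, ?_⟩
      rw [hz]
      ring

/-- averaging: a further point of the line keeps a quarter of the common neighbours -/
theorem exists_next (p : ℕ) [Fact p.Prime] [CharP F p] {v : F}
    (hD : p ^ 3 - 2 ≤ 3 * (Dset F p v).card) (T : Finset F)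
    (hTc : 12 * T.card + 8 ≤ p ^ 3) (hpos : 0 < (NK p T).card) :
    ∃ t ∈ Lset p v, t ∉ T ∧ (NK p T).card ≤ 4 * (NK p (insert t T)).card := by
  by_contra hcon
  push Not at hcon
  set Q := p ^ 3 with hQ
  -- double counting
  have hdc := Finset.sum_card_bipartiteAbove_eq_sum_card_bipartiteBelow
    (s := NK p T) (t := Lset p v \ T) (fun x t => Cub x t)
  have hleft : ∀ x ∈ NK p T, Q ≤ 4 * (bipartiteAbove (fun x t => Cub x t) (Lset p v \ T) x).card := by
    intro x hx
    rw [mem_NK] at hx
    have h1 := card_nbrs p v (x := x) hx.1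
    have h2 : (Lset p v).filter (fun t => Cub x t) ⊆
        bipartiteAbove (fun x t => Cub x t) (Lset p v \ T) x ∪ T := by
      intro t ht
      rw [mem_filter] at ht
      rw [mem_union]
      by_cases h : t ∈ T
      · right; exact h
      · left
        rw [mem_bipartiteAbove, mem_sdiff]
        exact ⟨⟨ht.1, h⟩, ht.2⟩
    have h3 := le_trans (card_le_card h2) (card_union_le _ _)
    rw [h1] at h3
    omega
  have hsumL : (NK p T).card * Q ≤ 4 * ∑ x ∈ NK p T, (bipartiteAbove (fun x t => Cub x t) (Lset p v \ T) x).card := by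
    rw [Finset.mul_sum, ← smul_eq_mul, ← Finset.sum_const]
    exact Finset.sum_le_sum hleft
  have hright : ∀ t ∈ Lset p v \ T, 4 * (bipartiteBelow (fun x t => Cub x t) (NK p T) t).card + 1 ≤
      (NK p T).card := by
    intro t ht
    rw [mem_sdiff] at ht
    have h1 := hcon t ht.1 ht.2
    have h2 : (bipartiteBelow (fun x t => Cub x t) (NK p T) t).card ≤ (NK p (insert t T)).card := by
      refine card_le_card ?_
      intro x hx
      rw [mem_bipartiteBelow, mem_NK] at hx
      rw [mem_NK]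
      refine ⟨hx.1.1, ?_⟩
      intro t' ht'
      rw [mem_insert] at ht'
      rcases ht' with rfl | h
      · exact hx.2
      · exact hx.1.2 t' h
    omega
  have hLc : (Lset p v \ T).card ≤ Q := le_trans (card_le_card sdiff_subset) (card_Lset_le p v)
  have hsumR : ∑ t ∈ Lset p v \ T, (4 * (bipartiteBelow (fun x t => Cub x t) (NK p T) t).card + 1) ≤
      Q * (NK p T).card := by
    refine le_trans (Finset.sum_le_card_nsmul _ _ _ hright) ?_
    rw [smul_eq_mul]
    exact Nat.mul_le_mul_right _ hLc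
  rw [Finset.sum_add_distrib, ← Finset.mul_sum, ← hdc, Finset.sum_const, smul_eq_mul, mul_one] at hsumR
  have hempty : (Lset p v \ T).card = 0 := by
    have : (NK p T).card * Q = Q * (NK p T).card := mul_comm _ _
    omega
  -- but then every x has few neighbours
  obtain ⟨x, hx⟩ := card_pos.mp hpos
  have h1 := hleft x hx
  have h2 : (bipartiteAbove (fun x t => Cub x t) (Lset p v \ T) x).card ≤ (Lset p v \ T).card :=
    card_le_card (filter_subset _ _)
  have h3 := Q_ge p
  omega

end Pool.Agent.H82.Paley
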