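import Mathlib
import Pool.Agent.H82.PaleyClique

set_option autoImplicit false
set_option linter.unusedSectionVars false

namespace Pool.Agent.H82.Paley

open Finset Polynomial Classical

variable {F : Type*} [Field F] [Fintype F]

theorem adj_iff {x y : F} :
    (SimpleGraph.fromRel (fun x y : F => ∃ z : F, z ^ 3 = x - y)).Adj x y ↔ x ≠ y ∧ Cub x y := by
  rw [SimpleGraph.fromRel_adj]
  constructor
  · rintro ⟨h, h1 | h1⟩
    · exact ⟨h, h1⟩
    · exact ⟨h, Cub.symm h1⟩
  · rintro ⟨h, h1⟩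
    exact ⟨h, Or.inl h1⟩

theorem isClique_iff' {M : Finset F} :
    (SimpleGraph.fromRel (fun x y : F => ∃ z : F, z ^ 3 = x - y)).IsClique (M : Set F) ↔
      ∀ x ∈ M, ∀ y ∈ M, x ≠ y → Cub x y := by
  rw [SimpleGraph.isClique_iff, Set.Pairwise]
  simp only [adj_iff, mem_coe]
  constructor
  · intro h x hx y hy hxy
    exact (h hx hy hxy).2
  · intro h x hx y hy hxy
    exact ⟨hxy, h x hx y hy hxy⟩

theorem base_clique (p : ℕ) [Fact p.Prime] [CharP F p] (hp3 : p % 3 = 2) {v : F}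
    {T : Finset F} (hT : T ⊆ Lset p v) : ∀ x ∈ T ∪ NK p T, ∀ y ∈ T ∪ NK p T, x ≠ y → Cub x y := by
  intro x hx y hy _
  rw [mem_union] at hx hy
  rcases hx with hx | hx <;> rcases hy with hy | hy
  · have h1 := hT hx
    have h2 := hT hy
    unfold Lset at h1 h2
    rw [mem_filter] at h1 h2
    refine cube_of_fixed p hp3 ?_
    rw [sub_pow_char_pow]
    linear_combination h1.2 - h2.2
  · exact Cub.symm ((mem_NK.mp hy).2 x hx)
  · exact (mem_NK.mp hx).2 y hy
  · have h1 := (mem_NK.mp hx).1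
    have h2 := (mem_NK.mp hy).1
    refine cube_of_fixed p hp3 ?_
    rw [sub_pow_char_pow, h1, h2]

theorem exists_T (p : ℕ) [Fact p.Prime] [CharP F p] (hF : Fintype.card F = (p ^ 3) ^ 2)
    (hp3 : p % 3 = 2) (hp : 100 ≤ p) :
    ∃ v : F, v ≠ 0 ∧ ∃ T : Finset F, T ⊆ Lset p v ∧ 13 * p ^ 2 ≤ (NK p T).card ∧
      (NK p T).card < 52 * p ^ 2 := by
  obtain ⟨v, hv, hD⟩ := exists_Dset (F := F) p hF
  refine ⟨v, hv, ?_⟩
  set 𝒯 := (Lset p v).powerset.filter (fun T => 52 * p ^ 2 ≤ (NK p T).card) with h𝒯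
  have hne : 𝒯.Nonempty := by
    refine ⟨∅, ?_⟩
    rw [h𝒯, mem_filter, mem_powerset]
    refine ⟨empty_subset _, ?_⟩
    have h1 : NK p (∅ : Finset F) = Kset F p := by
      unfold NK
      simp
    rw [h1]
    refine le_trans ?_ (card_Kset (F := F) p hF)
    have : p ^ 3 = p * p ^ 2 := by ring
    rw [this]
    exact Nat.mul_le_mul_right _ (by omega)
  obtain ⟨T, hT, hmax⟩ := exists_max_image 𝒯 card hne
  rw [h𝒯, mem_filter, mem_powerset] at hT
  obtain ⟨hTL, hTc⟩ := hT
  -- T is small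
  have hb : T.card ≤ (4 * (p / 52 + 1) - 5) ^ 2 := by
    refine field_bound p hF hp3 (m := p / 52 + 1) (by omega) (by omega) (NK p T) T ?_ ?_ ?_ ?_
    · intro x hx
      exact (mem_NK.mp hx).1
    · intro z hz h
      have h1 := hTL hz
      unfold Lset at h1
      rw [mem_filter] at h1
      apply hv
      rw [← h1.2, h, sub_self]
    · intro x hx z hz
      exact (mem_NK.mp hx).2 z hz
    · calc p ^ 3 = p * p ^ 2 := by ring
        _ ≤ ((p / 52 + 1) * 52) * p ^ 2 := Nat.mul_le_mul_right _ (by omega)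
        _ = (p / 52 + 1) * (52 * p ^ 2) := by ring
        _ ≤ (p / 52 + 1) * (NK p T).card := Nat.mul_le_mul_left _ hTc
  have hsmall : 12 * T.card + 8 ≤ p ^ 3 := by
    have h1 : 4 * (p / 52 + 1) - 5 ≤ p := by omega
    have h2 : (4 * (p / 52 + 1) - 5) ^ 2 ≤ p ^ 2 := Nat.pow_le_pow_left h1 2
    have h3 : 12 * T.card ≤ 12 * p ^ 2 := Nat.mul_le_mul_left _ (le_trans hb h2)
    have h4 : 100 * p ^ 2 ≤ p ^ 3 := by
      have : p ^ 3 = p * p ^ 2 := by ring
      rw [this]
      exact Nat.mul_le_mul_right _ hp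
    have h5 : 1 ≤ p ^ 2 := Nat.one_le_pow _ _ (by omega)
    omega
  have hp2 : 1 ≤ p ^ 2 := Nat.one_le_pow _ _ (by omega)
  obtain ⟨t, htL, htT, ht4⟩ := exists_next p hD T hsmall (by omega)
  refine ⟨insert t T, insert_subset htL hTL, by omega, ?_⟩
  by_contra hcon
  push Not at hcon
  have h1 : insert t T ∈ 𝒯 := by
    rw [h𝒯, mem_filter, mem_powerset]
    exact ⟨insert_subset htL hTL, hcon⟩
  have h2 := hmax _ h1
  rw [card_insert_of_notMem htT] at h2
  omega

theorem exists_clique (p : ℕ) [Fact p.Prime] [CharP F p] (hF : Fintype.card F = (p ^ 3) ^ 2)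
    (hp3 : p % 3 = 2) (hp : 100 ≤ p) :
    ∃ M : Finset F,
      (SimpleGraph.fromRel (fun x y : F => ∃ z : F, z ^ 3 = x - y)).IsClique (M : Set F) ∧
      (∀ t : Finset F,
        (SimpleGraph.fromRel (fun x y : F => ∃ z : F, z ^ 3 = x - y)).IsClique (t : Set F) →
          M ⊆ t → t = M) ∧
      13 * p ^ 2 ≤ M.card ∧ M.card ≤ 53 * p ^ 2 := by
  obtain ⟨v, hv, T, hTL, hlo, hhi⟩ := exists_T (F := F) p hF hp3 hp
  set 𝒞 := (univ : Finset (Finset F)).filter (fun M => T ∪ NK p T ⊆ M ∧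
    (SimpleGraph.fromRel (fun x y : F => ∃ z : F, z ^ 3 = x - y)).IsClique (M : Set F)) with h𝒞
  have hne : 𝒞.Nonempty := by
    refine ⟨T ∪ NK p T, ?_⟩
    rw [h𝒞, mem_filter]
    exact ⟨mem_univ _, Subset.rfl, isClique_iff'.mpr (base_clique p hp3 hTL)⟩
  obtain ⟨M, hM, hmax⟩ := exists_max_image 𝒞 card hne
  rw [h𝒞, mem_filter] at hM
  obtain ⟨_, hsub, hcl⟩ := hM
  refine ⟨M, hcl, ?_, ?_, ?_⟩
  · intro t ht hMt
    have h1 : t ∈ 𝒞 := by
      rw [h𝒞, mem_filter]
      exact ⟨mem_univ _, subset_trans hsub hMt, ht⟩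
    exact (eq_of_subset_of_card_le hMt (hmax t h1)).symm
  · refine le_trans hlo (card_le_card ?_)
    exact subset_trans subset_union_right hsub
  · rw [isClique_iff'] at hcl
    have hsplit : M ⊆ NK p T ∪ M.filter (fun z => z ^ (p ^ 3) ≠ z) := by
      intro z hz
      rw [mem_union]
      by_cases h : z ^ (p ^ 3) = z
      · left
        rw [mem_NK]
        refine ⟨h, ?_⟩
        intro t ht
        refine hcl z hz t (hsub (mem_union_left _ ht)) ?_
        intro hzt
        have h1 := hTL ht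
        unfold Lset at h1
        rw [mem_filter] at h1
        apply hv
        rw [← h1.2, ← hzt, h, sub_self]
      · right
        rw [mem_filter]
        exact ⟨hz, h⟩
    have hb : (M.filter (fun z => z ^ (p ^ 3) ≠ z)).card ≤ (4 * (p / 13 + 1) - 5) ^ 2 := by
      refine field_bound p hF hp3 (m := p / 13 + 1) (by omega) (by omega) (NK p T) _ ?_ ?_ ?_ ?_
      · intro x hx
        exact (mem_NK.mp hx).1
      · intro z hz
        exact (mem_filter.mp hz).2
      · intro x hx z hz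
        rw [mem_filter] at hz
        refine hcl x (hsub (mem_union_right _ hx)) z hz.1 ?_
        intro hxz
        apply hz.2
        rw [← hxz]
        exact (mem_NK.mp hx).1
      · calc p ^ 3 = p * p ^ 2 := by ring
          _ ≤ ((p / 13 + 1) * 13) * p ^ 2 := Nat.mul_le_mul_right _ (by omega)
          _ = (p / 13 + 1) * (13 * p ^ 2) := by ring
          _ ≤ (p / 13 + 1) * (NK p T).card := Nat.mul_le_mul_left _ hlo
    have h1 : 4 * (p / 13 + 1) - 5 ≤ p := by omega
    have h2 : (4 * (p / 13 + 1) - 5) ^ 2 ≤ p ^ 2 := Nat.pow_le_pow_left h1 2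
    have h3 := le_trans (card_le_card hsplit) (card_union_le _ _)
    omega

end Pool.Agent.H82.Paley
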