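import Mathlib
import Pool.Agent.H82.TS.Arith
import Pool.Agent.H82.TS.Geom

/-!
# Three squares for `n = 3 mod 8`

Every natural number `8 m + 3` is a sum of three (odd) squares.  Proof (Ankeny's shape):
Dirichlet's theorem and reciprocity give a positive definite integral ternary form of
determinant one which represents `n` (`Arith.lean`); Minkowski's theorem in dimension three
(`Geom.lean`) used twice gives two orthonormal integral vectors `v, w`; the Gram identity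
`f(x) = f(v,x)^2 + f(w,x)^2 + det(v,w,x)^2` finishes.
-/

namespace Pool.Agent.H82.TS

open Matrix

/-- Two orthonormal integral vectors for `f = a x^2 + 2 h x y + d y^2 + 2 x z + n z^2`. -/
theorem orthonormal (a b d h n : ℤ) (hb : 0 < b) (hd : 0 < d) (h1 : a * d - h ^ 2 = b)
    (h2 : b * n - d = 1) :
    ∃ v w : Fin 3 → ℤ,
      a * v 0 ^ 2 + 2 * h * v 0 * v 1 + d * v 1 ^ 2 + 2 * v 0 * v 2 + n * v 2 ^ 2 = 1 ∧
      a * w 0 ^ 2 + 2 * h * w 0 * w 1 + d * w 1 ^ 2 + 2 * w 0 * w 2 + n * w 2 ^ 2 = 1 ∧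
      a * v 0 * w 0 + h * (v 0 * w 1 + v 1 * w 0) + d * v 1 * w 1 + (v 0 * w 2 + v 2 * w 0)
        + n * v 2 * w 2 = 0 := by
  have hbR : (0 : ℝ) < b := by exact_mod_cast hb
  have hdR : (0 : ℝ) < d := by exact_mod_cast hd
  have h1R : (a : ℝ) * d - h ^ 2 = b := by exact_mod_cast h1
  have h2R : (b : ℝ) * n - d = 1 := by exact_mod_cast h2
  -- square roots
  obtain ⟨β, hβ0, hβ⟩ : ∃ β : ℝ, 0 < β ∧ β ^ 2 = b := ⟨√b, Real.sqrt_pos.2 hbR, Real.sq_sqrt hbR.le⟩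
  obtain ⟨δ, hδ0, hδ⟩ : ∃ δ : ℝ, 0 < δ ∧ δ ^ 2 = d := ⟨√d, Real.sqrt_pos.2 hdR, Real.sq_sqrt hdR.le⟩
  set A : Matrix (Fin 3) (Fin 3) ℝ :=
    !![(h : ℝ) / δ, δ, 0; β / δ, 0, δ / β; 0, 0, 1 / β] with hA
  have hdetA : A.det = -1 := by
    rw [hA, Matrix.det_fin_three]
    simp
    field_simp
  -- the bilinear form of `A`
  have hbil : ∀ x y : Fin 3 → ℝ, (A.mulVec x) 0 * (A.mulVec y) 0 + (A.mulVec x) 1 * (A.mulVec y) 1
      + (A.mulVec x) 2 * (A.mulVec y) 2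
      = a * x 0 * y 0 + h * (x 0 * y 1 + x 1 * y 0) + d * x 1 * y 1 + (x 0 * y 2 + x 2 * y 0)
        + n * x 2 * y 2 := by
    intro x y
    have ha : (a : ℝ) = (h ^ 2 + β ^ 2) / δ ^ 2 := by
      rw [hδ, hβ]
      field_simp
      linarith
    have hn : (n : ℝ) = (1 + δ ^ 2) / β ^ 2 := by
      rw [hδ, hβ]
      field_simp
      linarith
    rw [ha, hn, ← hδ]
    simp [hA, Matrix.mulVec, dotProduct, Fin.sum_univ_three]
    field_simp
    ring
  have hpos : ∀ x : Fin 3 → ℤ, x ≠ 0 →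
      0 < a * x 0 ^ 2 + 2 * h * x 0 * x 1 + d * x 1 ^ 2 + 2 * x 0 * x 2 + n * x 2 ^ 2 := by
    intro x hx
    have key : b * d * (a * x 0 ^ 2 + 2 * h * x 0 * x 1 + d * x 1 ^ 2 + 2 * x 0 * x 2
        + n * x 2 ^ 2) = b * (d * x 1 + h * x 0) ^ 2 + (b * x 0 + d * x 2) ^ 2 + d * x 2 ^ 2 := by
      have e1 : a * d = b + h ^ 2 := by linarith
      have e2 : b * n = 1 + d := by linarith
      linear_combination b * x 0 ^ 2 * e1 + d * x 2 ^ 2 * e2
    have hbd : 0 < b * d := mul_pos hb hd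
    have hnn : 0 ≤ b * (d * x 1 + h * x 0) ^ 2 + (b * x 0 + d * x 2) ^ 2 + d * x 2 ^ 2 := by
      positivity
    rcases lt_or_eq_of_le hnn with hlt | heq
    · rw [← key] at hlt
      exact (mul_pos_iff_of_pos_left hbd).1 hlt
    · exfalso
      apply hx
      have p1 : 0 ≤ b * (d * x 1 + h * x 0) ^ 2 := by positivity
      have p2 : 0 ≤ (b * x 0 + d * x 2) ^ 2 := by positivity
      have p3 : 0 ≤ d * x 2 ^ 2 := by positivity
      have q3 : x 2 = 0 := by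
        have : d * x 2 ^ 2 = 0 := by linarith
        rcases mul_eq_zero.1 this with h | h
        · omega
        · exact pow_eq_zero_iff (two_ne_zero) |>.1 h
      have q2 : x 0 = 0 := by
        have : (b * x 0 + d * x 2) ^ 2 = 0 := by linarith
        have := pow_eq_zero_iff (two_ne_zero) |>.1 this
        rw [q3, mul_zero, add_zero] at this
        rcases mul_eq_zero.1 this with h | h
        · omega
        · exact h
      have q1 : x 1 = 0 := by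
        have : b * (d * x 1 + h * x 0) ^ 2 = 0 := by linarith
        rcases mul_eq_zero.1 this with h | h
        · omega
        · have := pow_eq_zero_iff (two_ne_zero) |>.1 h
          rw [q2, mul_zero, add_zero] at this
          rcases mul_eq_zero.1 this with h | h
          · omega
          · exact h
      funext i
      fin_cases i
      · exact q2
      · exact q1
      · exact q3
  -- the first vector
  obtain ⟨v, hv0, hv⟩ := minkowski A (by rw [hdetA]; norm_num) (√2) (by positivity) (by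
    rw [hdetA, abs_neg, abs_one, mul_one]
    have s2 : (√2 : ℝ) ^ 3 = 2 * √2 := by
      rw [pow_succ, Real.sq_sqrt (by norm_num)]
    have s1 : (1 : ℝ) ≤ √2 := Real.one_le_sqrt.2 (by norm_num)
    have s3 := Real.pi_gt_three
    rw [s2]
    have : (1.4 : ℝ) ≤ √2 := Real.le_sqrt_of_sq_le (by norm_num)
    nlinarith)
  rw [Real.sq_sqrt (by norm_num), Fin.sum_univ_three] at hv
  have hfv : a * v 0 ^ 2 + 2 * h * v 0 * v 1 + d * v 1 ^ 2 + 2 * v 0 * v 2 + n * v 2 ^ 2 = 1 := by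
    have hp := hpos v hv0
    have hlt : (a * v 0 ^ 2 + 2 * h * v 0 * v 1 + d * v 1 ^ 2 + 2 * v 0 * v 2 + n * v 2 ^ 2 : ℝ)
        < 2 := by
      have := hbil (fun j => (v j : ℝ)) (fun j => (v j : ℝ))
      nlinarith
    have hlt' : a * v 0 ^ 2 + 2 * h * v 0 * v 1 + d * v 1 ^ 2 + 2 * v 0 * v 2 + n * v 2 ^ 2 < 2 := by
      exact_mod_cast hlt
    omega
  -- the stretched form
  set u : Fin 3 → ℝ := A.mulVec (fun j => (v j : ℝ)) with hu
  have huu : u 0 ^ 2 + u 1 ^ 2 + u 2 ^ 2 = 1 := by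
    have := hbil (fun j => (v j : ℝ)) (fun j => (v j : ℝ))
    have e : (a * v 0 ^ 2 + 2 * h * v 0 * v 1 + d * v 1 ^ 2 + 2 * v 0 * v 2 + n * v 2 ^ 2 : ℝ)
        = 1 := by exact_mod_cast hfv
    rw [← hu] at this
    linarith
  set M : Matrix (Fin 3) (Fin 3) ℝ :=
    !![1 + 0.39 * u 0 * u 0, 0.39 * u 0 * u 1, 0.39 * u 0 * u 2;
       0.39 * u 1 * u 0, 1 + 0.39 * u 1 * u 1, 0.39 * u 1 * u 2;
       0.39 * u 2 * u 0, 0.39 * u 2 * u 1, 1 + 0.39 * u 2 * u 2] with hM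
  have hdetM : M.det = 1.39 := by
    rw [hM, Matrix.det_fin_three]
    simp
    linear_combination (0.39 : ℝ) * huu
  have hMy : ∀ y : Fin 3 → ℝ, (M.mulVec y) 0 ^ 2 + (M.mulVec y) 1 ^ 2 + (M.mulVec y) 2 ^ 2
      = y 0 ^ 2 + y 1 ^ 2 + y 2 ^ 2 + 0.9321 * (u 0 * y 0 + u 1 * y 1 + u 2 * y 2) ^ 2 := by
    intro y
    have e0 : (M.mulVec y) 0 = y 0 + 0.39 * u 0 * (u 0 * y 0 + u 1 * y 1 + u 2 * y 2) := by
      simp [hM, Matrix.mulVec, dotProduct, Fin.sum_univ_three]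
      ring
    have e1 : (M.mulVec y) 1 = y 1 + 0.39 * u 1 * (u 0 * y 0 + u 1 * y 1 + u 2 * y 2) := by
      simp [hM, Matrix.mulVec, dotProduct, Fin.sum_univ_three]
      ring
    have e2 : (M.mulVec y) 2 = y 2 + 0.39 * u 2 * (u 0 * y 0 + u 1 * y 1 + u 2 * y 2) := by
      simp [hM, Matrix.mulVec, dotProduct, Fin.sum_univ_three]
      ring
    rw [e0, e1, e2]
    linear_combination (0.39 ^ 2 * (u 0 * y 0 + u 1 * y 1 + u 2 * y 2) ^ 2) * huu
  obtain ⟨w, hw0, hw⟩ := minkowski (M * A) (by rw [det_mul, hdetA, hdetM]; norm_num) 1.39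
    (by norm_num) (by
      rw [det_mul, hdetA, hdetM]
      have : |(1.39 : ℝ) * -1| = 1.39 := by
        rw [mul_neg_one, abs_neg, abs_of_pos (by norm_num)]
      rw [this]
      have s3 := Real.pi_gt_d2
      nlinarith)
  have hcomp : (M * A).mulVec (fun j => (w j : ℝ)) = M.mulVec (A.mulVec (fun j => (w j : ℝ))) := by
    rw [Matrix.mulVec_mulVec]
  rw [hcomp, Fin.sum_univ_three, hMy] at hw
  have hfwR := hbil (fun j => (w j : ℝ)) (fun j => (w j : ℝ))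
  have hvwR := hbil (fun j => (v j : ℝ)) (fun j => (w j : ℝ))
  rw [← hu] at hvwR
  have hp := hpos w hw0
  set y : Fin 3 → ℝ := A.mulVec (fun j => (w j : ℝ)) with hy
  -- integers
  set fw : ℤ := a * w 0 ^ 2 + 2 * h * w 0 * w 1 + d * w 1 ^ 2 + 2 * w 0 * w 2 + n * w 2 ^ 2
    with hfw
  set vw : ℤ := a * v 0 * w 0 + h * (v 0 * w 1 + v 1 * w 0) + d * v 1 * w 1
    + (v 0 * w 2 + v 2 * w 0) + n * v 2 * w 2 with hvw
  have c1 : y 0 ^ 2 + y 1 ^ 2 + y 2 ^ 2 = (fw : ℝ) := by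
    rw [hfw]
    push_cast
    linarith
  have c2 : u 0 * y 0 + u 1 * y 1 + u 2 * y 2 = (vw : ℝ) := by
    rw [hvw]
    push_cast
    linarith
  rw [c1, c2] at hw
  have hvw0 : vw = 0 := by
    by_contra hne
    have g1 : (1 : ℤ) ≤ vw ^ 2 := by
      have : 0 < vw ^ 2 := by positivity
      omega
    have g2 : (1 : ℝ) ≤ (vw : ℝ) ^ 2 := by exact_mod_cast g1
    have g3 : (1 : ℝ) ≤ (fw : ℝ) := by exact_mod_cast hp
    norm_num at hw
    linarith
  have hfw1 : fw = 1 := by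
    rw [hvw0] at hw
    have : (fw : ℝ) < 2 := by
      norm_num at hw
      linarith
    have : fw < 2 := by exact_mod_cast this
    omega
  exact ⟨v, w, hfv, hfw1, hvw0⟩

/-- The integral three squares statement for `n = 3 mod 8`. -/
theorem three_squares_int (n : ℕ) (hn : n % 8 = 3) :
    ∃ x y z : ℤ, (n : ℤ) = x ^ 2 + y ^ 2 + z ^ 2 := by
  obtain ⟨a, b, d, h, hb, hd, h1, h2⟩ := exists_form n hn
  obtain ⟨v, w, hv, hw, hvw⟩ := orthonormal a b d h n hb hd h1 h2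
  refine ⟨v 0 + n * v 2, w 0 + n * w 2, v 0 * w 1 - v 1 * w 0, ?_⟩
  have hdet : a * d * n - h ^ 2 * n - d = 1 := by
    rw [← h1] at h2
    linarith
  have key : (a * v 0 ^ 2 + 2 * h * v 0 * v 1 + d * v 1 ^ 2 + 2 * v 0 * v 2 + n * v 2 ^ 2)
      * (a * w 0 ^ 2 + 2 * h * w 0 * w 1 + d * w 1 ^ 2 + 2 * w 0 * w 2 + n * w 2 ^ 2) * n
      + 2 * (a * v 0 * w 0 + h * (v 0 * w 1 + v 1 * w 0) + d * v 1 * w 1
        + (v 0 * w 2 + v 2 * w 0) + n * v 2 * w 2) * (v 0 + n * v 2) * (w 0 + n * w 2)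
      - (a * v 0 ^ 2 + 2 * h * v 0 * v 1 + d * v 1 ^ 2 + 2 * v 0 * v 2 + n * v 2 ^ 2)
        * (w 0 + n * w 2) ^ 2
      - (a * w 0 ^ 2 + 2 * h * w 0 * w 1 + d * w 1 ^ 2 + 2 * w 0 * w 2 + n * w 2 ^ 2)
        * (v 0 + n * v 2) ^ 2
      - n * (a * v 0 * w 0 + h * (v 0 * w 1 + v 1 * w 0) + d * v 1 * w 1
        + (v 0 * w 2 + v 2 * w 0) + n * v 2 * w 2) ^ 2
      = (v 0 * w 1 - v 1 * w 0) ^ 2 * (a * d * n - h ^ 2 * n - d) := by
    ring
  rw [hv, hw, hvw, hdet] at key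
  linarith

/-- **Three odd squares**: `8 m + 3` is a sum of three odd squares. -/
theorem three_odd_squares (m : ℕ) :
    ∃ a b c : ℕ, Odd a ∧ Odd b ∧ Odd c ∧ 8 * m + 3 = a ^ 2 + b ^ 2 + c ^ 2 := by
  obtain ⟨x, y, z, h⟩ := three_squares_int (8 * m + 3) (by omega)
  have h' : 8 * m + 3 = x.natAbs ^ 2 + y.natAbs ^ 2 + z.natAbs ^ 2 := by
    zify
    rw [sq_abs, sq_abs, sq_abs]
    exact_mod_cast h
  generalize x.natAbs = p at h'
  generalize y.natAbs = q at h'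
  generalize z.natAbs = r at h'
  have hmod : (p ^ 2 + q ^ 2 + r ^ 2) % 8 = 3 := by omega
  have hsq : ∀ t : ℕ, (t % 2 = 1 ∧ t ^ 2 % 8 = 1) ∨ (t % 2 = 0 ∧ (t ^ 2 % 8 = 0 ∨ t ^ 2 % 8 = 4)) := by
    intro t
    have h8 : t % 8 < 8 := Nat.mod_lt _ (by norm_num)
    have hs : t ^ 2 % 8 = (t % 8) ^ 2 % 8 := Nat.pow_mod t 2 8
    have h2 : t % 2 = (t % 8) % 2 := by omega
    rw [hs, h2]
    interval_cases (t % 8) <;> simp
  have hp := hsq p
  have hq := hsq q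
  have hr := hsq r
  refine ⟨p, q, r, Nat.odd_iff.2 ?_, Nat.odd_iff.2 ?_, Nat.odd_iff.2 ?_, h'⟩ <;> omega

/-- **Three squares**: `8 m + 3` is a sum of three squares. -/
theorem three_squares (m : ℕ) : ∃ a b c : ℕ, 8 * m + 3 = a ^ 2 + b ^ 2 + c ^ 2 := by
  obtain ⟨a, b, c, -, -, -, h⟩ := three_odd_squares m
  exact ⟨a, b, c, h⟩

end Pool.Agent.H82.TS
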